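import Pool.Agent.Q18.NB.Comb
import Pool.Agent.Y170.NV.Lsep

/-!
# Transfer: CNT, LCJ
-/

set_option autoImplicit false

open scoped Classical BigOperators

noncomputable section

set_option linter.unusedSectionVars false
set_option linter.unusedVariables false

namespace Pool.Agent.Q18.NB

open Pool.Agent.Q18.LF
open Pool.Agent.Y63.NV
open Pool.Agent.Y63.KR
open Pool.Agent.Y286.NV (sup_conj mem_conj)
open Pool.Agent.Y170.NV (cE cE_coe cE_symm_coe)

section

variable {p : ℕ} {Γ : Type} [Group Γ] [Finite Γ]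

theorem nrm_conj (g : Γ) (Q : Subgroup Γ) :
    Subgroup.normalizer (conjSub g Q : Set Γ) = conjSub g (Subgroup.normalizer (Q : Set Γ)) :=
  (Pool.Agent.Y63.AWC.normalizer_map (MulAut.conj g) Q).symm

theorem card_conj (g : Γ) (Q : Subgroup Γ) : Nat.card (conjSub g Q) = Nat.card Q :=
  Nat.card_congr (Subgroup.equivMapOfInjective _ _ (MulAut.conj g).injective).toEquiv.symm

theorem pg_conj {g : Γ} {Q : Subgroup Γ} : IsPGroup p (conjSub g Q) ↔ IsPGroup p Q :=
  ⟨fun h => h.of_equiv (Subgroup.equivMapOfInjective _ _ (MulAut.conj g).injective).symm,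
    fun h => h.map _⟩

/-- the key of the transfer -/
theorem se_key [Fact p.Prime] {G H : Subgroup Γ} [hG : G.Normal] (hSE : SE p G H)
    {R : Subgroup Γ} (hR : IsPGroup p R) (hRH : R ≤ H) (hGR : G ⊔ R = ⊤) {x : Γ}
    (hx : conjSub x R ≤ H) : x ∈ H := by
  set D := H ⊓ conjSub x⁻¹ H with hD
  have hRD : R ≤ D := by
    refine le_inf hRH ?_
    have h1 := conjSub_le (g := x⁻¹) hx
    rwa [conjSub_inv_conjSub] at h1
  obtain ⟨S', hS'⟩ := (hR.comap_subtype (K := D)).exists_le_sylow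
  set S := (S' : Subgroup D).map D.subtype with hS
  have hSp : IsPGroup p S := S'.isPGroup'.map _
  have hRS : R ≤ S := by
    intro y hy
    exact ⟨⟨y, hRD hy⟩, hS' hy, rfl⟩
  have hSD : S ≤ D := Subgroup.map_subtype_le _
  have hGS : G ⊔ S = ⊤ := by
    rw [eq_top_iff, ← hGR]
    exact sup_le_sup_left hRS G
  have hN1 : Subgroup.normalizer (S : Set Γ) ≤ H := hSE.nrm S hSp (hSD.trans inf_le_left) hGS
  have hxS : conjSub x S ≤ H := by
    have h1 := conjSub_le (g := x) (hSD.trans inf_le_right)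
    rwa [conjSub_conjSub_inv] at h1
  have hN2 : Subgroup.normalizer (S : Set Γ) ≤ conjSub x⁻¹ H := by
    have h1 := hSE.nrm (conjSub x S) (pg_conj.2 hSp) hxS ((sup_conj G x S).2 hGS)
    rw [nrm_conj] at h1
    have h2 := conjSub_le (g := x⁻¹) h1
    rwa [conjSub_inv_conjSub] at h2
  obtain ⟨T, hT⟩ := hSp.exists_le_sylow
  have hST : S = T := by
    by_contra hne
    have hlt : S < T := lt_of_le_of_ne hT hne
    have h1 := nrm_grow T.isPGroup' hlt
    set W := Subgroup.normalizer (S : Set Γ) ⊓ (T : Subgroup Γ) with hW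
    have hWD : W ≤ D := inf_le_left.trans (le_inf hN1 hN2)
    have hWp : IsPGroup p (W.subgroupOf D) := (T.isPGroup'.to_le inf_le_right).comap_subtype
    have h2 : (S' : Subgroup D) ≤ W.subgroupOf D := by
      intro y hy
      exact h1.le ⟨y, hy, rfl⟩
    have h3 := S'.is_maximal' hWp h2
    apply absurd h1 (not_lt_of_ge ?_)
    intro y hy
    have h4 : (⟨y, hWD hy⟩ : D) ∈ (S' : Subgroup D) := by
      rw [← h3]
      exact hy
    exact ⟨_, h4, rfl⟩
  have hTH : (T : Subgroup Γ) ≤ H := hST ▸ hSD.trans inf_le_left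
  have hxT : ((x • T : Sylow p Γ) : Subgroup Γ) ≤ H := by
    have h1 : ((x • T : Sylow p Γ) : Subgroup Γ) = conjSub x (T : Subgroup Γ) := rfl
    rw [h1, ← hST]
    exact hxS
  obtain ⟨h, hh⟩ := MulAction.exists_smul_eq H (T.subtype hTH) ((x • T : Sylow p Γ).subtype hxT)
  have h1 : conjSub (h : Γ) (T : Subgroup Γ) = conjSub x (T : Subgroup Γ) := by
    have h2 : ∀ y : H, y ∈ ((h • T.subtype hTH : Sylow p H) : Subgroup H) ↔
        (y : Γ) ∈ conjSub (h : Γ) (T : Subgroup Γ) := by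
      intro y
      rw [mem_conjSub]
      have h3 : ((h • T.subtype hTH : Sylow p H) : Subgroup H) =
          conjSub h ((T.subtype hTH : Sylow p H) : Subgroup H) := rfl
      rw [h3, mem_conjSub]
      rfl
    ext y
    constructor
    · intro hy
      have hyH : y ∈ H := by
        rw [mem_conjSub] at hy
        have h4 := H.mul_mem (H.mul_mem h.2 (hTH hy)) (H.inv_mem h.2)
        have e : (h : Γ) * ((h : Γ)⁻¹ * y * h) * (h : Γ)⁻¹ = y := by group
        rwa [e] at h4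
      have h5 := (h2 ⟨y, hyH⟩).2 hy
      rw [hh] at h5
      exact h5
    · intro hy
      have hyH : y ∈ H := hxT hy
      have h5 : (⟨y, hyH⟩ : H) ∈ ((x • T : Sylow p Γ).subtype hxT : Subgroup H) := hy
      rw [← hh] at h5
      exact (h2 ⟨y, hyH⟩).1 h5
  have h6 : (h : Γ)⁻¹ * x ∈ Subgroup.normalizer (S : Set Γ) := by
    rw [← conjSub_eq_iff, conjSub_mul, hST, ← h1, conjSub_inv_conjSub]
  have h7 := H.mul_mem h.2 (hN1 h6)
  have e : (h : Γ) * ((h : Γ)⁻¹ * x) = x := by group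
  rwa [e] at h7

end

theorem cnt : S_CNT := by
  intro p _ Γ _ _ G H hG φ hSE hφ
  have hf1 : Fintype Γ := Fintype.ofFinite Γ
  rw [finsum_eq_sum_of_fintype, finsum_eq_sum_of_fintype]
  have hg : ∀ g : Γ, ∑ Q : Subgroup Γ, (if IsPGroup p Q ∧ conjSub g Q ≤ H ∧ G ⊔ Q = ⊤ then φ Q
      else 0) = ∑ Q : Subgroup Γ, if IsPGroup p Q ∧ Q ≤ H ∧ G ⊔ Q = ⊤ then φ Q else 0 := by
    intro g
    let e : Subgroup Γ ≃ Subgroup Γ :=
      { toFun := conjSub g
        invFun := conjSub g⁻¹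
        left_inv := conjSub_inv_conjSub g
        right_inv := conjSub_conjSub_inv g }
    rw [← Equiv.sum_comp e (fun Q => if IsPGroup p Q ∧ Q ≤ H ∧ G ⊔ Q = ⊤ then φ Q else 0)]
    refine Finset.sum_congr rfl fun Q _ => ?_
    change _ = if IsPGroup p (conjSub g Q) ∧ conjSub g Q ≤ H ∧ G ⊔ conjSub g Q = ⊤ then
      φ (conjSub g Q) else 0
    have h1 : G ⊔ conjSub g Q = ⊤ ↔ G ⊔ Q = ⊤ := sup_conj G g Q
    by_cases h : IsPGroup p Q ∧ conjSub g Q ≤ H ∧ G ⊔ Q = ⊤
    · rw [if_pos h, if_pos ⟨pg_conj.2 h.1, h.2.1, h1.2 h.2.2⟩, hφ]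
    · rw [if_neg h, if_neg (fun h' => h ⟨pg_conj.1 h'.1, h'.2.1, h1.1 h'.2.2⟩)]
  have h1 : (Nat.card Γ : ℤ) * ∑ Q : Subgroup Γ,
      (if IsPGroup p Q ∧ Q ≤ H ∧ G ⊔ Q = ⊤ then φ Q else 0) =
      ∑ g : Γ, ∑ Q : Subgroup Γ,
        (if IsPGroup p Q ∧ conjSub g Q ≤ H ∧ G ⊔ Q = ⊤ then φ Q else 0) := by
    rw [Finset.sum_congr rfl fun g _ => hg g, Finset.sum_const, Finset.card_univ,
      Nat.card_eq_fintype_card, nsmul_eq_mul]
  rw [h1, Finset.sum_comm, Finset.mul_sum]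
  refine Finset.sum_congr rfl fun Q _ => ?_
  by_cases hQ : IsPGroup p Q ∧ G ⊔ Q = ⊤
  · rw [if_pos hQ]
    have h2 : ∀ g : Γ, (if IsPGroup p Q ∧ conjSub g Q ≤ H ∧ G ⊔ Q = ⊤ then φ Q else 0) =
        if conjSub g Q ≤ H then φ Q else 0 := by
      intro g
      by_cases h : conjSub g Q ≤ H
      · rw [if_pos ⟨hQ.1, h, hQ.2⟩, if_pos h]
      · rw [if_neg (fun h' => h h'.2.1), if_neg h]
    rw [Finset.sum_congr rfl fun g _ => h2 g, ← Finset.sum_filter, Finset.sum_const, nsmul_eq_mul]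
    congr 1
    obtain ⟨P, hP⟩ := hSE.syl
    obtain ⟨T, hT⟩ := hQ.1.exists_le_sylow
    obtain ⟨g₀, hg₀⟩ := MulAction.exists_smul_eq Γ T P
    have h3 : conjSub g₀ Q ≤ H := by
      refine (conjSub_le hT).trans ?_
      have h4 : ((g₀ • T : Sylow p Γ) : Subgroup Γ) = conjSub g₀ (T : Subgroup Γ) := rfl
      rw [← h4, hg₀]
      exact hP
    have h5 : (Finset.univ.filter fun g : Γ => conjSub g Q ≤ H).card = Nat.card H := by
      rw [← Fintype.card_subtype, ← Nat.card_eq_fintype_card]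
      refine Nat.card_congr
        { toFun := fun g => ⟨g.1 * g₀⁻¹, ?_⟩
          invFun := fun h => ⟨h * g₀, ?_⟩
          left_inv := fun g => Subtype.ext (by change g.1 * g₀⁻¹ * g₀ = g.1; group)
          right_inv := fun h => Subtype.ext (by change (h : Γ) * g₀ * g₀⁻¹ = h; group) }
      · refine se_key hSE (R := conjSub g₀ Q) (pg_conj.2 hQ.1) h3
          ((sup_conj G g₀ Q).2 hQ.2) ?_
        rw [← conjSub_mul]
        have e : g.1 * g₀⁻¹ * g₀ = g.1 := by group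
        rw [e]
        exact g.2
      · rw [conjSub_mul]
        have h6 := conjSub_le (g := (h : Γ)) h3
        have h7 : conjSub (h : Γ) H = H := conjSub_eq_iff.2 (Subgroup.le_normalizer h.2)
        rwa [h7] at h6
    rw [h5]
  · rw [if_neg hQ, mul_zero]
    symm
    refine Finset.sum_eq_zero fun g _ => ?_
    rw [if_neg (fun h => hQ ⟨h.1, h.2.2⟩)]

section

variable {p : ℕ} {F : Type} [Field F] {Γ : Type} [Group Γ] [Finite Γ]

theorem lsum_conj (G : Subgroup Γ) [hG : G.Normal] {z : Γ → F} (hz : InZ G z) (c : F) (g : Γ)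
    (H : Subgroup Γ) : Lsum G (conjSub g H) z c = Lsum G H z c := by
  have h1 : G ⊔ conjSub g H = ⊤ ↔ G ⊔ H = ⊤ := sup_conj G g H
  have h2 : Lnum (G ⊓ H) H z c = Lnum (G ⊓ conjSub g H) (conjSub g H) z c := by
    refine Pool.Agent.Y210.NV2.lnum_congr _ _ _ _ _ _ c (cE G g H)
      (fun x => hz.conj g x) fun φ => ⟨?_, ?_⟩
    · intro h h' hh x y hxy
      refine h (g * h' * g⁻¹) (mem_conj.mpr hh) (cE G g H x) (cE G g H y) ?_
      rw [cE_coe, cE_coe, hxy]
      group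
    · intro h h' hh x y hxy
      obtain ⟨x, rfl⟩ := (cE G g H).surjective x
      obtain ⟨y, rfl⟩ := (cE G g H).surjective y
      refine h (g⁻¹ * h' * g) (mem_conjSub.1 hh) x y ?_
      rw [cE_coe, cE_coe] at hxy
      have h3 : (y : Γ) = g⁻¹ * (g * y * g⁻¹) * g := by group
      rw [h3, hxy]
      group
  unfold Lsum
  by_cases h : G ⊔ H = ⊤
  · rw [if_pos h, if_pos (h1.2 h), h2, card_conj]
  · rw [if_neg h, if_neg (fun h' => h (h1.1 h'))]

end

theorem lcj : S_LCJ := by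
  intro p F _ Γ _ _ G hG z hz c g Q
  unfold LL
  symm
  have hm : ∀ {g : Γ} {Q : Subgroup Γ} {τ : Set (Subgroup Γ)},
      (IsPChain p τ ∧ ∀ P ∈ τ, Q < P ∧ P ≤ Subgroup.normalizer (Q : Set Γ)) →
      (IsPChain p (conjSub g '' τ) ∧ ∀ P ∈ conjSub g '' τ, conjSub g Q < P ∧
        P ≤ Subgroup.normalizer (conjSub g Q : Set Γ)) := by
    rintro g Q τ ⟨h1, h2⟩
    refine ⟨h1.conj g, ?_⟩
    rintro _ ⟨P, hP, rfl⟩
    refine ⟨lt_of_le_of_ne (conjSub_le (h2 P hP).1.le)
      (fun h => (h2 P hP).1.ne (conjSub_injective g h)), ?_⟩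
    rw [nrm_conj]
    exact conjSub_le (h2 P hP).2
  refine finsum_eq_of_bijective
    (e := fun τ : CQ p Q (Subgroup.normalizer (Q : Set Γ)) =>
      (⟨conjSub g '' τ.1, hm τ.2⟩ : CQ p (conjSub g Q)
        (Subgroup.normalizer (conjSub g Q : Set Γ)))) ?_ ?_
  · constructor
    · intro σ σ' h
      apply Subtype.ext
      exact (conjSub_injective g).image_injective (congrArg Subtype.val h)
    · intro τ
      have h1 := hm (g := g⁻¹) τ.2
      rw [conjSub_inv_conjSub] at h1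
      refine ⟨⟨conjSub g⁻¹ '' τ.1, h1⟩, ?_⟩
      apply Subtype.ext
      change conjSub g '' (conjSub g⁻¹ '' τ.1) = τ.1
      rw [← Set.image_comp]
      have : conjSub g ∘ conjSub g⁻¹ = id := funext fun P => conjSub_conjSub_inv g P
      rw [this, Set.image_id]
  · intro τ
    change (-1) ^ τ.1.ncard * Lsum G (Subgroup.normalizer (Q : Set Γ) ⊓
        Subgroup.normalizer (Q : Set Γ) ⊓ chainStabilizer τ.1) z c =
      (-1) ^ (conjSub g '' τ.1).ncard * Lsum G (Subgroup.normalizer (conjSub g Q : Set Γ) ⊓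
        Subgroup.normalizer (conjSub g Q : Set Γ) ⊓ chainStabilizer (conjSub g '' τ.1)) z c
    have hinf : ∀ A B : Subgroup Γ, conjSub g (A ⊓ B) = conjSub g A ⊓ conjSub g B :=
      fun A B => Subgroup.map_inf _ _ _ (MulAut.conj g).injective
    rw [ncard_conj, chainStabilizer_conj, nrm_conj, ← hinf, ← hinf, lsum_conj G hz]

end Pool.Agent.Q18.NB
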