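import Pool.Agent.Q18.NB.Quo

/-!
# Transport: CMA, CNV
-/

set_option autoImplicit false

open scoped Classical BigOperators

noncomputable section

set_option linter.unusedSectionVars false
set_option linter.unusedVariables false

namespace Pool.Agent.Q18.NB

open Pool.Agent.Q18.LF
open Pool.Agent.Y63.NV
open Pool.Agent.Y63.KR
open Pool.Agent.Y63.AWC (IsIrreducibleCharacter pSubgroupSetoid irr_comp)
open Pool.Agent.Y286.NV (centralValue_comp irr_class isWt_comp)
open Pool.Agent.Y171.NV (card_mul_alt)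

section gen

variable {F : Type} [Field F] {J J' : Type} [Group J] [Group J'] [Finite J] [Finite J']

/-- numbers of characters and isomorphisms -/
theorem cnt_iso (red : integralClosure ℤ ℂ →+* F) (e : J ≃* J') {ι : Type} (P : ι → Prop)
    (f : ι → J → F) (f' : ι → J' → F) (b : ι → F) (hf' : ∀ i, P i → IsClassFun (f' i))
    (h : ∀ i, P i → ∀ x, f' i (e x) = f i x) (R : (J → ℂ) → Prop) (R' : (J' → ℂ) → Prop)
    (hR : ∀ χ, R' χ → R (fun x => χ (e x))) (hR2 : ∀ χ, R χ → R' (fun x => χ (e.symm x)))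
    (hirr : ∀ χ, R' χ → IsIrreducibleCharacter χ) :
    Nat.card {χ : J' → ℂ // R' χ ∧ ∀ i, P i → centralValue red χ (f' i) = b i} =
      Nat.card {χ : J → ℂ // R χ ∧ ∀ i, P i → centralValue red χ (f i) = b i} := by
  have hval : ∀ χ : J' → ℂ, R' χ → ∀ i, P i →
      centralValue red (fun x => χ (e x)) (f i) = centralValue red χ (f' i) := by
    intro χ hχ i hi
    have h1 := centralValue_comp red e χ (irr_class (hirr χ hχ)) (f' i) (hf' i hi)
    rw [← h1]
    congr 1
    funext x
    exact (h i hi x).symm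
  refine Nat.card_congr
    { toFun := fun χ => ⟨fun x => χ.1 (e x), hR χ.1 χ.2.1, fun i hi => ?_⟩
      invFun := fun χ => ⟨fun x => χ.1 (e.symm x), hR2 χ.1 χ.2.1, fun i hi => ?_⟩
      left_inv := ?_
      right_inv := ?_ }
  · rw [hval χ.1 χ.2.1 i hi]
    exact χ.2.2 i hi
  · have h1 := hval (fun x => χ.1 (e.symm x)) (hR2 χ.1 χ.2.1) i hi
    have h2 : (fun x => (fun x => χ.1 (e.symm x)) (e x)) = χ.1 := by
      funext x
      change χ.1 (e.symm (e x)) = χ.1 x
      rw [e.symm_apply_apply]
    rw [h2] at h1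
    rw [← h1]
    exact χ.2.2 i hi
  · intro χ
    apply Subtype.ext
    funext x
    change χ.1 (e (e.symm x)) = χ.1 x
    rw [e.apply_symm_apply]
  · intro χ
    apply Subtype.ext
    funext x
    change χ.1 (e.symm (e x)) = χ.1 x
    rw [e.symm_apply_apply]

/-- alternating sums and isomorphisms -/
theorem alt_iso (p : ℕ) (e : J ≃* J') (f : Subgroup J → ℤ) (f' : Subgroup J' → ℤ)
    (hf : ∀ (g : J) (H : Subgroup J), f (conjSub g H) = f H)
    (hf' : ∀ (g : J') (H : Subgroup J'), f' (conjSub g H) = f' H)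
    (h : ∀ H : Subgroup J, f' (H.map e.toMonoidHom) = f H) :
    alternatingSum p J' f' = alternatingSum p J f := by
  have hpos : (Nat.card J : ℤ) ≠ 0 := by exact_mod_cast Nat.card_pos.ne'
  refine mul_left_cancel₀ hpos ?_
  have h1 := card_mul_alt (p := p) f hf
  have h2 := card_mul_alt (p := p) f' hf'
  rw [h1, Nat.card_congr e.toEquiv, h2]
  symm
  have hinj : Function.Injective (fun P : Subgroup J => P.map e.toMonoidHom) :=
    Subgroup.map_injective e.injective
  have hback : ∀ P : Subgroup J', (P.map e.symm.toMonoidHom).map e.toMonoidHom = P := by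
    intro P
    rw [Subgroup.map_map]
    have : e.toMonoidHom.comp e.symm.toMonoidHom = MonoidHom.id J' := by
      ext x
      exact e.apply_symm_apply x
    rw [this, Subgroup.map_id]
  have hch : ∀ {A B : Type} [Group A] [Group B] (a : A ≃* B) {σ : Set (Subgroup A)},
      IsPChain p σ → IsPChain p ((fun P : Subgroup A => P.map a.toMonoidHom) '' σ) := by
    intro A B _ _ a σ hσ
    refine ⟨?_, ?_, ?_⟩
    · rintro _ ⟨P, hP, rfl⟩ _ ⟨P', hP', rfl⟩ _
      rcases hσ.chain.total hP hP' with h1 | h1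
      · exact Or.inl (Subgroup.map_mono h1)
      · exact Or.inr (Subgroup.map_mono h1)
    · rintro _ ⟨P, hP, rfl⟩
      exact (hσ.isPGroup P hP).map _
    · rintro _ ⟨P, hP, rfl⟩ h
      exact hσ.ne_bot P hP ((Subgroup.map_eq_bot_iff_of_injective P a.injective).1 h)
  have hstab : ∀ σ : Set (Subgroup J),
      chainStabilizer ((fun P : Subgroup J => P.map e.toMonoidHom) '' σ) =
        (chainStabilizer σ).map e.toMonoidHom := by
    intro σ
    have hconj : ∀ (x : J) (P : Subgroup J),
        conjSub (e x) (P.map e.toMonoidHom) = (conjSub x P).map e.toMonoidHom := by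
      intro x P
      unfold conjSub
      rw [Subgroup.map_map, Subgroup.map_map]
      congr 1
      ext y
      change e x * e y * (e x)⁻¹ = e (x * y * x⁻¹)
      rw [map_mul, map_mul, map_inv]
    ext y
    obtain ⟨x, rfl⟩ := e.surjective y
    have h3 : e x ∈ (chainStabilizer σ).map e.toMonoidHom ↔ x ∈ chainStabilizer σ := by
      constructor
      · rintro ⟨x', hx', hxx⟩
        have : x' = x := e.injective hxx
        rwa [← this]
      · intro hx
        exact ⟨x, hx, rfl⟩
    rw [h3, mem_chainStabilizer, mem_chainStabilizer]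
    constructor
    · intro h P hP
      have h1 := h _ ⟨P, hP, rfl⟩
      change conjSub (e x) (P.map e.toMonoidHom) = P.map e.toMonoidHom at h1
      rw [hconj] at h1
      exact hinj h1
    · rintro h _ ⟨P, hP, rfl⟩
      change conjSub (e x) (P.map e.toMonoidHom) = P.map e.toMonoidHom
      rw [hconj, h P hP]
  refine finsum_eq_of_bijective (e := fun σ : {σ : Set (Subgroup J) // IsPChain p σ} =>
    (⟨(fun P : Subgroup J => P.map e.toMonoidHom) '' σ.1, hch e σ.2⟩ :
      {σ : Set (Subgroup J') // IsPChain p σ})) ?_ ?_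
  · constructor
    · intro σ σ' h
      apply Subtype.ext
      exact hinj.image_injective (congrArg Subtype.val h)
    · intro τ
      refine ⟨⟨(fun P : Subgroup J' => P.map e.symm.toMonoidHom) '' τ.1, hch e.symm τ.2⟩, ?_⟩
      apply Subtype.ext
      change (fun P : Subgroup J => P.map e.toMonoidHom) ''
        ((fun P : Subgroup J' => P.map e.symm.toMonoidHom) '' τ.1) = τ.1
      ext P
      constructor
      · rintro ⟨_, ⟨P', hP', rfl⟩, rfl⟩
        change (P'.map e.symm.toMonoidHom).map e.toMonoidHom ∈ τ.1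
        rw [hback]
        exact hP'
      · intro hP
        exact ⟨_, ⟨P, hP, rfl⟩, hback P⟩
  · intro σ
    change (-1) ^ σ.1.ncard * ((Nat.card (chainStabilizer σ.1) : ℤ) * f (chainStabilizer σ.1)) =
      (-1) ^ ((fun P : Subgroup J => P.map e.toMonoidHom) '' σ.1).ncard *
        ((Nat.card (chainStabilizer ((fun P : Subgroup J => P.map e.toMonoidHom) '' σ.1)) : ℤ) *
          f' (chainStabilizer ((fun P : Subgroup J => P.map e.toMonoidHom) '' σ.1)))
    rw [Set.ncard_image_of_injective _ hinj, hstab, h]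
    congr 3
    exact Nat.card_congr ((chainStabilizer σ.1).equivMapOfInjective _ e.injective).toEquiv

end gen

section

variable {F : Type} [Field F] {Γ : Type} [Group Γ] [Finite Γ]

theorem pz_class {G : Subgroup Γ} {z : Γ → F} (hz : InZ G z) (Q : Subgroup Γ) :
    IsClassFun (pz Q z) := cls F Γ z Q fun g x => hz.conj g x

theorem cov_conj (red : integralClosure ℤ ℂ →+* F) (G Q : Subgroup Γ) (B : (G → F) → F)
    (g : NQ Q) (H : Subgroup (NQ Q)) :
    numIrrCov red G Q B (conjSub g H) = numIrrCov red G Q B H := by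
  let e : H ≃* conjSub g H := (MulAut.conj g).subgroupMap H
  unfold numIrrCov
  exact cnt_iso red e (fun z : Γ → F => InZ G z) (fun z (x : H) => pz Q z x)
    (fun z (x : conjSub g H) => pz Q z x) (fun z => B (fun x : G => z x))
    (fun z hz a x => pz_class hz Q a x) (fun z hz x => pz_class hz Q g x)
    IsIrreducibleCharacter IsIrreducibleCharacter (fun χ h => irr_comp e h)
    (fun χ h => irr_comp e.symm h) (fun χ h => h)

theorem cma : S_CMA := by
  intro p F _ red Γ _ _ G B Q
  exact card_mul_alt (fun H => (numIrrCov red G Q B H : ℤ)) fun g H => by rw [cov_conj]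

theorem g_conj (red : integralClosure ℤ ℂ →+* F) (G : Subgroup Γ) (B : (Γ → F) → F)
    (g : G) (H : Subgroup G) :
    numIrrG red G B (conjSub g H) = numIrrG red G B H := by
  let e : H ≃* conjSub g H := (MulAut.conj g).subgroupMap H
  unfold numIrrG
  exact cnt_iso red e (fun z : Γ → F => InZ G z) (fun z (x : H) => z x)
    (fun z (x : conjSub g H) => z x) (fun z => B z)
    (fun z hz a x => hz.conj (a : G) x) (fun z hz x => hz.conj g x)
    IsIrreducibleCharacter IsIrreducibleCharacter (fun χ h => irr_comp e h)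
    (fun χ h => irr_comp e.symm h) (fun χ h => h)

theorem cmag {p : ℕ} (red : integralClosure ℤ ℂ →+* F) (G : Subgroup Γ) (B : (Γ → F) → F) :
    (Nat.card G : ℤ) * alternatingSum p G (fun H => (numIrrG red G B H : ℤ)) =
      ∑ᶠ σ : {σ : Set (Subgroup G) // IsPChain p σ}, (-1) ^ σ.1.ncard *
        ((Nat.card (chainStabilizer σ.1) : ℤ) * numIrrG red G B (chainStabilizer σ.1)) :=
  card_mul_alt (fun H => (numIrrG red G B H : ℤ)) fun g H => by rw [g_conj]

/-- conjugation on the normalisers -/
def nEc (g : Γ) (Q : Subgroup Γ) : Subgroup.normalizer (Q : Set Γ) ≃*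
    Subgroup.normalizer (conjSub g Q : Set Γ) := Pool.Agent.Y286.NV.nE g Q

theorem nEc_coe (g : Γ) (Q : Subgroup Γ) (x : Subgroup.normalizer (Q : Set Γ)) :
    (nEc g Q x : Γ) = g * x * g⁻¹ := rfl

/-- conjugation on the quotients -/
def eQ (g : Γ) (Q : Subgroup Γ) : NQ Q ≃* NQ (conjSub g Q) :=
  QuotientGroup.congr _ _ (nEc g Q) (by
    ext x
    constructor
    · rintro ⟨y, hy, rfl⟩
      exact ⟨y, hy, rfl⟩
    · rintro ⟨y, hy, hyx⟩
      refine ⟨⟨y, Subgroup.le_normalizer hy⟩, hy, Subtype.ext hyx⟩)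

theorem pz_eQ {G : Subgroup Γ} {z : Γ → F} (hz : InZ G z) (g : Γ) (Q : Subgroup Γ) (x : NQ Q) :
    pz (conjSub g Q) z (eQ g Q x) = pz Q z x := by
  obtain ⟨x, rfl⟩ := prj_surj Q x
  have h1 : eQ g Q (prj Q x) = prj (conjSub g Q) (nEc g Q x) := rfl
  rw [h1]
  unfold pz push
  rw [← finsum_comp_equiv (nEc g Q).toEquiv]
  refine finsum_congr fun y => ?_
  have h2 : (((nEc g Q).toEquiv y :
      Subgroup.normalizer (conjSub g Q : Set Γ)) : NQ (conjSub g Q)) =
      prj (conjSub g Q) (nEc g Q x) ↔ (y : NQ Q) = prj Q x := by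
    change eQ g Q (prj Q y) = eQ g Q (prj Q x) ↔ prj Q y = prj Q x
    exact (eQ g Q).injective.eq_iff
  have h3 : z (((nEc g Q).toEquiv y :
      Subgroup.normalizer (conjSub g Q : Set Γ)) : Γ) = z y := hz.conj g y
  by_cases h : (y : NQ Q) = prj Q x
  · rw [if_pos h, if_pos (h2.2 h)]
    exact h3
  · rw [if_neg h, if_neg (fun h4 => h (h2.1 h4))]

theorem cnv : S_CNV := by
  intro p F _ red Γ _ _ G B g Q
  refine alt_iso p (eQ g Q) _ _ (fun a H => by rw [cov_conj]) (fun a H => by rw [cov_conj])
    fun H => ?_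
  congr 1
  let e : H ≃* H.map (eQ g Q).toMonoidHom :=
    H.equivMapOfInjective (eQ g Q).toMonoidHom (eQ g Q).injective
  have he : ∀ x : H, ((e x : H.map (eQ g Q).toMonoidHom) : NQ (conjSub g Q)) = eQ g Q x :=
    fun x => rfl
  unfold numIrrCov
  exact cnt_iso red e (fun z : Γ → F => InZ G z) (fun z (x : H) => pz Q z x)
    (fun z (x : H.map (eQ g Q).toMonoidHom) => pz (conjSub g Q) z x)
    (fun z => B (fun x : G => z x))
    (fun z hz a x => pz_class hz (conjSub g Q) a x) (fun z hz x => by
      change pz (conjSub g Q) z (e x) = pz Q z x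
      rw [he, pz_eQ hz])
    IsIrreducibleCharacter IsIrreducibleCharacter (fun χ h => irr_comp e h)
    (fun χ h => irr_comp e.symm h) (fun χ h => h)

theorem cnvd (p : ℕ) (red : integralClosure ℤ ℂ →+* F) (G : Subgroup Γ) (B : (G → F) → F)
    (g : Γ) (Q : Subgroup Γ) : numDzCov p red G (conjSub g Q) B = numDzCov p red G Q B := by
  unfold numDzCov
  exact cnt_iso red (eQ g Q) (fun z : Γ → F => InZ G z) (fun z => pz Q z)
    (fun z => pz (conjSub g Q) z) (fun z => B (fun x : G => z x))
    (fun z hz => pz_class hz (conjSub g Q)) (fun z hz x => pz_eQ hz g Q x)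
    (IsWt p ⊥) (IsWt p ⊥)
    (fun χ h => isWt_comp (eQ g Q) (fun x => by
      rw [Subgroup.mem_bot, Subgroup.mem_bot, map_eq_one_iff _ (eQ g Q).injective]) h)
    (fun χ h => isWt_comp (eQ g Q).symm (fun x => by
      rw [Subgroup.mem_bot, Subgroup.mem_bot, map_eq_one_iff _ (eQ g Q).symm.injective]) h)
    (fun χ h => h.irr)

end

end Pool.Agent.Q18.NB
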