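import Pool.Agent.Q18.LF.Stm

/-!
# Sums over chains: ALT, NRM, IDX
-/

set_option autoImplicit false

open scoped Classical BigOperators

noncomputable section

set_option linter.unusedSectionVars false

namespace Pool.Agent.Q18.NB

open Pool.Agent.Q18.LF
open Pool.Agent.Y63.NV
open Pool.Agent.Y63.KR

variable {p : ℕ} {Γ : Type} [Group Γ] [Finite Γ]

instance : Fintype (Set (Subgroup Γ)) := Fintype.ofFinite _

instance : Fintype (Subgroup Γ) := Fintype.ofFinite _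

/-- sums over subtypes as sums over finite sets -/
theorem fin_sub (P : Set (Subgroup Γ) → Prop) [DecidablePred P] (F : Set (Subgroup Γ) → ℤ) :
    ∑ᶠ σ : {σ : Set (Subgroup Γ) // P σ}, F σ.1 = ∑ σ ∈ Finset.univ.filter P, F σ := by
  have : Fintype {σ : Set (Subgroup Γ) // P σ} := Fintype.ofFinite _
  rw [finsum_eq_sum_of_fintype]
  exact (Finset.sum_subtype (p := P) (Finset.univ.filter P) (by simp) F).symm

theorem least_mem {σ : Set (Subgroup Γ)} (hσ : IsChain (· ≤ ·) σ) (hne : σ.Nonempty) :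
    sInf σ ∈ σ ∧ ∀ P ∈ σ, sInf σ ≤ P := by
  obtain ⟨P, hP, hmin⟩ := exists_least hσ hne
  have h : sInf σ = P := le_antisymm (sInf_le hP) (le_sInf hmin)
  rw [h]
  exact ⟨hP, hmin⟩

theorem stab_insert (Q : Subgroup Γ) (τ : Set (Subgroup Γ)) :
    chainStabilizer (insert Q τ) = Subgroup.normalizer (Q : Set Γ) ⊓ chainStabilizer τ := by
  ext x
  rw [Subgroup.mem_inf, mem_chainStabilizer, mem_chainStabilizer, ← conjSub_eq_iff]
  constructor
  · intro h
    exact ⟨h Q (Set.mem_insert _ _), fun P hP => h P (Set.mem_insert_of_mem _ hP)⟩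
  · rintro ⟨h1, h2⟩ P (rfl | hP)
    · exact h1
    · exact h2 P hP

/-- chains with least member `Q` -/
theorem ins_sum (F : Set (Subgroup Γ) → ℤ) {Q H : Subgroup Γ} (hQ : IsPGroup p Q)
    (hQ1 : Q ≠ ⊥) (hQH : Q ≤ H) :
    ∑ᶠ τ : CQ p Q H, F (insert Q τ.1) =
      ∑ σ ∈ Finset.univ.filter (fun σ : Set (Subgroup Γ) =>
        IsPChain p σ ∧ Q ∈ σ ∧ ∀ P ∈ σ, Q ≤ P ∧ P ≤ H), F σ := by
  have h0 : ∑ᶠ τ : CQ p Q H, F (insert Q τ.1) =
      ∑ τ ∈ Finset.univ.filter (fun τ : Set (Subgroup Γ) =>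
        IsPChain p τ ∧ ∀ P ∈ τ, Q < P ∧ P ≤ H), F (insert Q τ) :=
    fin_sub (fun τ => IsPChain p τ ∧ ∀ P ∈ τ, Q < P ∧ P ≤ H) (fun τ => F (insert Q τ))
  rw [h0]
  refine Finset.sum_bij' (fun τ _ => insert Q τ) (fun σ _ => σ \ {Q}) ?_ ?_ ?_ ?_ ?_
  · intro τ hτ
    obtain ⟨h1, h2⟩ := (Finset.mem_filter.1 hτ).2
    refine Finset.mem_filter.2 ⟨Finset.mem_univ _, ⟨?_, ?_, ?_⟩, Set.mem_insert _ _, ?_⟩
    · exact h1.chain.insert fun P hP _ => Or.inl (h2 P hP).1.le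
    · rintro P (rfl | hP)
      · exact hQ
      · exact h1.isPGroup P hP
    · rintro P (rfl | hP)
      · exact hQ1
      · exact h1.ne_bot P hP
    · rintro P (rfl | hP)
      · exact ⟨le_rfl, hQH⟩
      · exact ⟨(h2 P hP).1.le, (h2 P hP).2⟩
  · intro σ hσ
    obtain ⟨h1, h2, h3⟩ := (Finset.mem_filter.1 hσ).2
    refine Finset.mem_filter.2 ⟨Finset.mem_univ _, ⟨h1.chain.mono Set.sdiff_subset,
      fun P hP => h1.isPGroup P hP.1, fun P hP => h1.ne_bot P hP.1⟩, fun P hP => ?_⟩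
    exact ⟨lt_of_le_of_ne (h3 P hP.1).1 fun h => hP.2 h.symm, (h3 P hP.1).2⟩
  · intro τ hτ
    obtain ⟨h1, h2⟩ := (Finset.mem_filter.1 hτ).2
    have h3 : Q ∉ τ := fun h => lt_irrefl _ (h2 Q h).1
    ext P
    constructor
    · rintro ⟨h4 | h4, h5⟩
      · exact absurd h4 h5
      · exact h4
    · intro h4
      exact ⟨Or.inr h4, fun h5 => h3 (h5 ▸ h4)⟩
  · intro σ hσ
    obtain ⟨h1, h2, h3⟩ := (Finset.mem_filter.1 hσ).2
    change insert Q (σ \ {Q}) = σ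
    rw [Set.insert_sdiff_singleton, Set.insert_eq_of_mem h2]
  · intro τ hτ
    rfl

theorem ncard_insert' {Q H : Subgroup Γ} (τ : CQ p Q H) :
    (insert Q τ.1).ncard = τ.1.ncard + 1 :=
  Set.ncard_insert_of_notMem (fun h => lt_irrefl _ (τ.2.2 Q h).1) (Set.toFinite _)

/-- the local term as a sum over the chains with least member `Q` -/
theorem LL_eq (f : Subgroup Γ → ℤ) {Q H : Subgroup Γ} (hQ : IsPGroup p Q)
    (hQ1 : Q ≠ ⊥) (hQH : Q ≤ H) :
    LL p f Q H = - ∑ σ ∈ Finset.univ.filter (fun σ : Set (Subgroup Γ) =>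
        IsPChain p σ ∧ Q ∈ σ ∧ ∀ P ∈ σ, Q ≤ P ∧ P ≤ H),
          (-1) ^ σ.ncard * f (H ⊓ chainStabilizer σ) := by
  rw [← ins_sum (p := p) (fun σ => (-1) ^ σ.ncard * f (H ⊓ chainStabilizer σ)) hQ hQ1 hQH]
  unfold LL
  have hfin : Finite (CQ p Q H) := by
    unfold CQ
    infer_instance
  have : Fintype (CQ p Q H) := Fintype.ofFinite _
  rw [finsum_eq_sum_of_fintype, finsum_eq_sum_of_fintype, ← Finset.sum_neg_distrib]
  refine Finset.sum_congr rfl fun τ _ => ?_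
  rw [ncard_insert', stab_insert, pow_succ, inf_assoc]
  ring

/-! ### ALT -/

theorem alt : S_ALT := by
  intro p _ Γ _ _ G w f hG hf H
  set C : Finset (Set (Subgroup Γ)) := Finset.univ.filter (fun σ : Set (Subgroup Γ) =>
    IsPChain p σ ∧ ∀ P ∈ σ, G ⊔ P = ⊤ ∧ P ≤ H) with hC
  have step1 : ∑ σ ∈ C, (-1) ^ σ.ncard * f (H ⊓ chainStabilizer σ) = 0 := by
    have h1 : ∀ σ ∈ C, (-1) ^ σ.ncard * f (H ⊓ chainStabilizer σ) =
        ∑ R : Subgroup Γ, (-1 : ℤ) ^ σ.ncard *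
          (if IsPGroup p R ∧ R ≤ H ⊓ chainStabilizer σ ∧ G ⊔ R = ⊤ then
            w R (H ⊓ chainStabilizer σ ⊓ Subgroup.normalizer (R : Set Γ)) else 0) := by
      intro σ _
      rw [hf, finsum_eq_sum_of_fintype, Finset.mul_sum]
    rw [Finset.sum_congr rfl h1, Finset.sum_comm]
    refine Finset.sum_eq_zero fun R _ => ?_
    by_cases hR : IsPGroup p R ∧ R ≤ H ∧ G ⊔ R = ⊤
    · obtain ⟨hRp, hRH, hRG⟩ := hR
      have hR1 : R ≠ ⊥ := by
        rintro rfl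
        exact hG (by simpa using hRG)
      have h2 : ∀ σ ∈ C, (-1 : ℤ) ^ σ.ncard *
          (if IsPGroup p R ∧ R ≤ H ⊓ chainStabilizer σ ∧ G ⊔ R = ⊤ then
            w R (H ⊓ chainStabilizer σ ⊓ Subgroup.normalizer (R : Set Γ)) else 0) =
          if R ≤ chainStabilizer σ then (-1 : ℤ) ^ σ.ncard *
            w R (H ⊓ (chainStabilizer σ ⊓ Subgroup.normalizer (R : Set Γ))) else 0 := by
        intro σ _
        by_cases h : R ≤ chainStabilizer σ
        · rw [if_pos ⟨hRp, le_inf hRH h, hRG⟩, if_pos h, inf_assoc]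
        · rw [if_neg (fun h' => h (h'.2.1.trans inf_le_right)), if_neg h, mul_zero]
      rw [Finset.sum_congr rfl h2, ← Finset.sum_filter]
      refine Finset.sum_involution (fun σ _ => toggle R σ) ?_ ?_ ?_ ?_
      · intro σ hσ
        have h3 := (Finset.mem_filter.1 hσ).2
        have h4 := (Finset.mem_filter.1 (Finset.mem_filter.1 hσ).1).2
        have h5 := (stab_toggle hRp hR1 h4.1 h3).2
        rw [ncard_toggle, h5]
        ring
      · intro σ _ _ h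
        have h2 := ncard_toggle R σ
        rw [h] at h2
        have h3 : ((-1 : ℤ)) ^ σ.ncard ≠ 0 := pow_ne_zero _ (by norm_num)
        omega
      · intro σ hσ
        have h3 := (Finset.mem_filter.1 hσ).2
        have h4 := (Finset.mem_filter.1 (Finset.mem_filter.1 hσ).1).2
        refine Finset.mem_filter.2 ⟨Finset.mem_filter.2 ⟨Finset.mem_univ _,
          (stab_le_toggle hRp hR1 h4.1 h3).1, ?_⟩, (stab_toggle hRp hR1 h4.1 h3).1⟩
        have h6 : G ⊔ toggled R σ = ⊤ ∧ toggled R σ ≤ H := by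
          constructor
          · rw [eq_top_iff, ← hRG]
            exact sup_le_sup_left (le_toggled R σ) G
          · refine sup_le ?_ hRH
            rcases lower_cases h4.1.chain R with h | h
            · rw [h]; exact bot_le
            · exact (h4.2 _ h.1).2
        intro P hP
        unfold toggle at hP
        split_ifs at hP with h7
        · exact h4.2 P hP.1
        · rcases hP with rfl | hP
          · exact h6
          · exact h4.2 P hP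
      · intro σ _
        exact toggle_toggle R σ
    · refine Finset.sum_eq_zero fun σ _ => ?_
      rw [if_neg (fun h => hR ⟨h.1, h.2.1.trans inf_le_left, h.2.2⟩), mul_zero]
  have hemp : (∅ : Set (Subgroup Γ)) ∈ C := Finset.mem_filter.2 ⟨Finset.mem_univ _, empty_chain,
    fun P hP => absurd hP (Set.notMem_empty P)⟩
  rw [← Finset.sum_erase_add C _ hemp] at step1
  have e1 : (-1 : ℤ) ^ (∅ : Set (Subgroup Γ)).ncard * f (H ⊓ chainStabilizer ∅) = f H := by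
    rw [Set.ncard_empty, pow_zero, one_mul, chainStabilizer_empty, inf_top_eq]
  rw [e1] at step1
  have step2 : ∑ σ ∈ C.erase ∅, (-1) ^ σ.ncard * f (H ⊓ chainStabilizer σ) =
      - ∑ Q : Subgroup Γ, if IsPGroup p Q ∧ Q ≤ H ∧ G ⊔ Q = ⊤ then LL p f Q H else 0 := by
    rw [← Finset.sum_fiberwise (C.erase ∅) (fun σ => sInf σ), ← Finset.sum_neg_distrib]
    refine Finset.sum_congr rfl fun Q _ => ?_
    by_cases hQ : IsPGroup p Q ∧ Q ≤ H ∧ G ⊔ Q = ⊤
    · have hQ1 : Q ≠ ⊥ := by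
        rintro rfl
        exact hG (by simpa using hQ.2.2)
      rw [if_pos hQ, LL_eq f hQ.1 hQ1 hQ.2.1, neg_neg]
      refine Finset.sum_congr ?_ fun _ _ => rfl
      ext σ
      rw [Finset.mem_filter, Finset.mem_erase, hC, Finset.mem_filter, Finset.mem_filter]
      constructor
      · rintro ⟨⟨h1, -, h2, h3⟩, h4⟩
        have h5 := least_mem h2.chain (Set.nonempty_iff_ne_empty.2 h1)
        rw [h4] at h5
        exact ⟨Finset.mem_univ _, h2, h5.1, fun P hP => ⟨h5.2 P hP, (h3 P hP).2⟩⟩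
      · rintro ⟨-, h2, h3, h4⟩
        have hne : σ.Nonempty := ⟨Q, h3⟩
        refine ⟨⟨Set.nonempty_iff_ne_empty.1 hne, Finset.mem_univ _, h2, fun P hP => ⟨?_,
          (h4 P hP).2⟩⟩, ?_⟩
        · rw [eq_top_iff, ← hQ.2.2]
          exact sup_le_sup_left (h4 P hP).1 G
        · exact le_antisymm (sInf_le h3) (le_sInf fun P hP => (h4 P hP).1)
    · rw [if_neg hQ, neg_zero]
      refine Finset.sum_eq_zero fun σ hσ => ?_
      exfalso
      apply hQ
      obtain ⟨h1, h2⟩ := Finset.mem_filter.1 hσ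
      obtain ⟨h3, h4⟩ := Finset.mem_erase.1 h1
      obtain ⟨-, h5, h6⟩ := Finset.mem_filter.1 h4
      have h7 := (least_mem h5.chain (Set.nonempty_iff_ne_empty.2 h3)).1
      rw [h2] at h7
      exact ⟨h5.isPGroup Q h7, (h6 Q h7).2, (h6 Q h7).1⟩
  rw [step2] at step1
  rw [finsum_eq_sum_of_fintype]
  linarith

/-! ### toggling the intersection with a subgroup -/

/-- the least member which is not contained in `M` -/
def low (M : Subgroup Γ) (σ : Set (Subgroup Γ)) : Subgroup Γ := sInf {P ∈ σ | ¬ P ≤ M}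

/-- insert or remove `M ⊓ low M σ` -/
def tg (M : Subgroup Γ) (σ : Set (Subgroup Γ)) : Set (Subgroup Γ) :=
  if M ⊓ low M σ ∈ σ then σ \ {M ⊓ low M σ} else insert (M ⊓ low M σ) σ

theorem low_tg (M : Subgroup Γ) (σ : Set (Subgroup Γ)) : low M (tg M σ) = low M σ := by
  unfold low
  congr 1
  ext P
  unfold tg
  constructor
  · rintro ⟨h1, h2⟩
    refine ⟨?_, h2⟩
    split_ifs at h1
    · exact h1.1
    · rcases h1 with h1 | h1
      · exact absurd (h1 ▸ inf_le_left) h2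
      · exact h1
  · rintro ⟨h1, h2⟩
    refine ⟨?_, h2⟩
    have hne : P ≠ M ⊓ low M σ := fun h => h2 (h ▸ inf_le_left)
    split_ifs
    · exact ⟨h1, hne⟩
    · exact Or.inr h1

theorem tg_tg (M : Subgroup Γ) (σ : Set (Subgroup Γ)) : tg M (tg M σ) = σ := by
  conv_lhs => rw [tg]
  rw [low_tg]
  by_cases h : M ⊓ low M σ ∈ σ
  · have h1 : tg M σ = σ \ {M ⊓ low M σ} := if_pos h
    rw [h1, if_neg (fun h2 => h2.2 rfl), Set.insert_sdiff_singleton, Set.insert_eq_of_mem h]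
  · have h1 : tg M σ = insert (M ⊓ low M σ) σ := if_neg h
    rw [h1, if_pos (Set.mem_insert _ _)]
    ext P
    simp only [Set.mem_sdiff, Set.mem_insert_iff, Set.mem_singleton_iff]
    constructor
    · rintro ⟨h2 | h2, h3⟩
      · exact absurd h2 h3
      · exact h2
    · intro h2
      exact ⟨Or.inr h2, fun h3 => h (h3 ▸ h2)⟩

theorem ncard_tg (M : Subgroup Γ) (σ : Set (Subgroup Γ)) :
    ((-1 : ℤ)) ^ (tg M σ).ncard = - (-1) ^ σ.ncard := by
  by_cases h : M ⊓ low M σ ∈ σ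
  · have h1 : tg M σ = σ \ {M ⊓ low M σ} := if_pos h
    have h2 := Set.ncard_sdiff_singleton_add_one h (Set.toFinite σ)
    rw [h1, ← h2, pow_succ]
    ring
  · have h1 : tg M σ = insert (M ⊓ low M σ) σ := if_neg h
    rw [h1, Set.ncard_insert_of_notMem h (Set.toFinite σ), pow_succ]
    ring

theorem low_mem {M : Subgroup Γ} {σ : Set (Subgroup Γ)} (hσ : IsChain (· ≤ ·) σ)
    (h : ∃ P ∈ σ, ¬ P ≤ M) : low M σ ∈ σ ∧ ¬ low M σ ≤ M ∧ ∀ P ∈ σ, ¬ P ≤ M → low M σ ≤ P := by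
  obtain ⟨P, hP, hPM⟩ := h
  have h1 := least_mem (σ := {P ∈ σ | ¬ P ≤ M}) (hσ.mono (Set.sep_subset _ _)) ⟨P, hP, hPM⟩
  exact ⟨h1.1.1, h1.1.2, fun P hP h => h1.2 P ⟨hP, h⟩⟩

theorem tg_chain {M : Subgroup Γ} {σ : Set (Subgroup Γ)} (hσ : IsPChain p σ)
    (h : ∃ P ∈ σ, ¬ P ≤ M) (hT : M ⊓ low M σ ≠ ⊥) : IsPChain p (tg M σ) := by
  obtain ⟨h1, h2, h3⟩ := low_mem hσ.chain h
  by_cases h4 : M ⊓ low M σ ∈ σ
  · have h5 : tg M σ = σ \ {M ⊓ low M σ} := if_pos h4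
    rw [h5]
    exact ⟨hσ.chain.mono Set.sdiff_subset, fun P hP => hσ.isPGroup P hP.1,
      fun P hP => hσ.ne_bot P hP.1⟩
  · have h5 : tg M σ = insert (M ⊓ low M σ) σ := if_neg h4
    rw [h5]
    refine ⟨?_, ?_, ?_⟩
    · refine hσ.chain.insert fun P hP _ => ?_
      by_cases h6 : P ≤ M
      · right
        refine le_inf h6 ?_
        rcases hσ.chain.total hP h1 with h7 | h7
        · exact h7
        · exact absurd (h7.trans h6) h2
      · left
        exact inf_le_right.trans (h3 P hP h6)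
    · rintro P (rfl | hP)
      · exact (hσ.isPGroup _ h1).to_le inf_le_right
      · exact hσ.isPGroup P hP
    · rintro P (rfl | hP)
      · exact hT
      · exact hσ.ne_bot P hP

theorem tg_bad {M : Subgroup Γ} {σ : Set (Subgroup Γ)} (h : ∃ P ∈ σ, ¬ P ≤ M) :
    ∃ P ∈ tg M σ, ¬ P ≤ M := by
  obtain ⟨P, hP, hPM⟩ := h
  refine ⟨P, ?_, hPM⟩
  have hne : P ≠ M ⊓ low M σ := fun h => hPM (h ▸ inf_le_left)
  unfold tg
  split_ifs
  · exact ⟨hP, hne⟩
  · exact Or.inr hP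

theorem stab_tg_le {M K : Subgroup Γ} (hK : K ≤ Subgroup.normalizer (M : Set Γ))
    {σ : Set (Subgroup Γ)} (hσ : IsChain (· ≤ ·) σ) (h : ∃ P ∈ σ, ¬ P ≤ M) :
    K ⊓ chainStabilizer σ ≤ chainStabilizer (tg M σ) := by
  obtain ⟨h1, h2, h3⟩ := low_mem hσ h
  intro x hxx
  obtain ⟨hxK, hx⟩ := Subgroup.mem_inf.1 hxx
  rw [mem_chainStabilizer] at hx
  rw [mem_chainStabilizer]
  have h4 : conjSub x (M ⊓ low M σ) = M ⊓ low M σ := by
    have h5 : conjSub x (M ⊓ low M σ) = conjSub x M ⊓ conjSub x (low M σ) :=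
      Subgroup.map_inf _ _ _ (MulAut.conj x).injective
    rw [h5, hx _ h1, conjSub_eq_iff.2 (hK hxK)]
  intro P hP
  unfold tg at hP
  split_ifs at hP
  · exact hx P hP.1
  · rcases hP with rfl | hP
    · exact h4
    · exact hx P hP

theorem stab_tg {M K : Subgroup Γ} (hK : K ≤ Subgroup.normalizer (M : Set Γ))
    {σ : Set (Subgroup Γ)} (hσ : IsPChain p σ) (h : ∃ P ∈ σ, ¬ P ≤ M)
    (hT : M ⊓ low M σ ≠ ⊥) :
    K ⊓ chainStabilizer (tg M σ) = K ⊓ chainStabilizer σ := by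
  refine le_antisymm (le_inf inf_le_left ?_) (le_inf inf_le_left (stab_tg_le hK hσ.chain h))
  have h1 := stab_tg_le hK (tg_chain hσ h hT).chain (tg_bad h)
  rw [tg_tg] at h1
  exact h1

/-- the cancellation -/
theorem tg_sum {M K : Subgroup Γ} (hK : K ≤ Subgroup.normalizer (M : Set Γ))
    (S : Finset (Set (Subgroup Γ)))
    (hS : ∀ σ ∈ S, IsPChain p σ ∧ (∃ P ∈ σ, ¬ P ≤ M) ∧ M ⊓ low M σ ≠ ⊥ ∧ tg M σ ∈ S)
    (g : Subgroup Γ → ℤ) :
    ∑ σ ∈ S, (-1) ^ σ.ncard * g (K ⊓ chainStabilizer σ) = 0 := by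
  refine Finset.sum_involution (fun σ _ => tg M σ) ?_ ?_ ?_ ?_
  · intro σ hσ
    obtain ⟨h1, h2, h3, _⟩ := hS σ hσ
    rw [ncard_tg, stab_tg hK h1 h2 h3]
    ring
  · intro σ _ _ h
    have h2 := ncard_tg M σ
    rw [h] at h2
    have h3 : ((-1 : ℤ)) ^ σ.ncard ≠ 0 := pow_ne_zero _ (by norm_num)
    omega
  · intro σ hσ
    exact (hS σ hσ).2.2.2
  · intro σ _
    exact tg_tg M σ

/-- normalisers grow in `p`-groups -/
theorem nrm_grow [Fact p.Prime] {Q P : Subgroup Γ} (hP : IsPGroup p P) (h : Q < P) :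
    Q < Subgroup.normalizer (Q : Set Γ) ⊓ P := by
  have hPn : Group.IsNilpotent P := hP.isNilpotent
  have h1 : NormalizerCondition P := Group.normalizerCondition_of_isNilpotent
  have h2 : Q.subgroupOf P < ⊤ := by
    rw [lt_top_iff_ne_top]
    intro h3
    rw [Subgroup.subgroupOf_eq_top] at h3
    exact absurd h3 (not_le_of_gt h)
  have h3 := h1 _ h2
  obtain ⟨x, hx, hxQ⟩ := SetLike.exists_of_lt h3
  refine lt_of_le_of_ne (le_inf Subgroup.le_normalizer h.le) fun h4 => hxQ ?_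
  rw [Subgroup.mem_subgroupOf, h4]
  refine Subgroup.mem_inf.2 ⟨?_, x.2⟩
  rw [Subgroup.mem_normalizer_iff]
  rw [Subgroup.mem_normalizer_iff] at hx
  intro y
  constructor
  · intro hy
    have := (hx ⟨y, h.le hy⟩).1 (Subgroup.mem_subgroupOf.2 hy)
    exact this
  · intro hy
    have h5 : y ∈ P := by
      have h6 : (x : Γ)⁻¹ * (x * y * (x : Γ)⁻¹) * x ∈ P :=
        P.mul_mem (P.mul_mem (P.inv_mem x.2) (h.le hy)) x.2
      have e : (x : Γ)⁻¹ * (x * y * (x : Γ)⁻¹) * x = y := by group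
      rwa [e] at h6
    exact (hx ⟨y, h5⟩).2 (Subgroup.mem_subgroupOf.2 hy)

theorem nrm : S_NRM := by
  intro p _ Γ _ _ f Q H hQ hQH
  set M := Subgroup.normalizer (Q : Set Γ) with hM
  have e1 : LL p f Q H = ∑ σ ∈ Finset.univ.filter (fun σ : Set (Subgroup Γ) =>
      IsPChain p σ ∧ ∀ P ∈ σ, Q < P ∧ P ≤ H),
        (-1) ^ σ.ncard * f (H ⊓ M ⊓ chainStabilizer σ) :=
    fin_sub (fun τ => IsPChain p τ ∧ ∀ P ∈ τ, Q < P ∧ P ≤ H)
      (fun σ => (-1) ^ σ.ncard * f (H ⊓ M ⊓ chainStabilizer σ))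
  have e2 : LL p f Q (H ⊓ M) = ∑ σ ∈ Finset.univ.filter (fun σ : Set (Subgroup Γ) =>
      IsPChain p σ ∧ ∀ P ∈ σ, Q < P ∧ P ≤ H ⊓ M),
        (-1) ^ σ.ncard * f (H ⊓ M ⊓ M ⊓ chainStabilizer σ) :=
    fin_sub (fun τ => IsPChain p τ ∧ ∀ P ∈ τ, Q < P ∧ P ≤ H ⊓ M)
      (fun σ => (-1) ^ σ.ncard * f (H ⊓ M ⊓ M ⊓ chainStabilizer σ))
  rw [e1, e2]
  rw [← Finset.sum_filter_add_sum_filter_not (Finset.univ.filter
    (fun σ : Set (Subgroup Γ) => IsPChain p σ ∧ ∀ P ∈ σ, Q < P ∧ P ≤ H))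
    (fun σ => ∀ P ∈ σ, P ≤ M)]
  have e3 : ∑ σ ∈ (Finset.univ.filter (fun σ : Set (Subgroup Γ) =>
      IsPChain p σ ∧ ∀ P ∈ σ, Q < P ∧ P ≤ H)).filter (fun σ => ¬ ∀ P ∈ σ, P ≤ M),
        (-1) ^ σ.ncard * f (H ⊓ M ⊓ chainStabilizer σ) = 0 := by
    refine tg_sum (p := p) (M := M) (K := H ⊓ M) (inf_le_right.trans Subgroup.le_normalizer) _
      ?_ f
    intro σ hσ
    obtain ⟨h1, h2⟩ := Finset.mem_filter.1 hσ
    obtain ⟨-, h3, h4⟩ := Finset.mem_filter.1 h1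
    have h5 : ∃ P ∈ σ, ¬ P ≤ M := by
      push Not at h2
      exact h2
    obtain ⟨h6, h7, h8⟩ := low_mem h3.chain h5
    have h9 : Q < M ⊓ low M σ := nrm_grow (h3.isPGroup _ h6) (h4 _ h6).1
    have h10 : M ⊓ low M σ ≠ ⊥ := (bot_le.trans_lt h9).ne'
    refine ⟨h3, h5, h10, Finset.mem_filter.2 ⟨Finset.mem_filter.2 ⟨Finset.mem_univ _,
      tg_chain h3 h5 h10, ?_⟩, ?_⟩⟩
    · intro P hP
      unfold tg at hP
      split_ifs at hP
      · exact h4 P hP.1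
      · rcases hP with rfl | hP
        · exact ⟨h9, inf_le_right.trans (h4 _ h6).2⟩
        · exact h4 P hP
    · obtain ⟨P, hP, hPM⟩ := tg_bad h5
      exact fun h => hPM (h P hP)
  rw [e3, add_zero]
  refine Finset.sum_congr ?_ fun σ _ => ?_
  · ext σ
    rw [Finset.mem_filter, Finset.mem_filter, Finset.mem_filter]
    constructor
    · rintro ⟨⟨h1, h2, h3⟩, h4⟩
      exact ⟨h1, h2, fun P hP => ⟨(h3 P hP).1, le_inf (h3 P hP).2 (h4 P hP)⟩⟩
    · rintro ⟨h1, h2, h3⟩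
      exact ⟨⟨h1, h2, fun P hP => ⟨(h3 P hP).1, (h3 P hP).2.trans inf_le_left⟩⟩,
        fun P hP => (h3 P hP).2.trans inf_le_right⟩
  · rw [inf_assoc H M M, inf_idem]

theorem idx : S_IDX := by
  intro p _ Γ _ _ G hG f
  have e1 : ∑ᶠ σ : {σ : Set (Subgroup Γ) // IsPChain p σ},
      (-1) ^ σ.1.ncard * f (chainStabilizer σ.1) = ∑ σ ∈ Finset.univ.filter
        (fun σ : Set (Subgroup Γ) => IsPChain p σ), (-1) ^ σ.ncard * f (chainStabilizer σ) :=
    fin_sub (fun σ => IsPChain p σ) (fun σ => (-1) ^ σ.ncard * f (chainStabilizer σ))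
  have e2 : ∑ᶠ σ : {σ : Set (Subgroup Γ) // IsPChain p σ ∧ ∀ P ∈ σ, P ≤ G},
      (-1) ^ σ.1.ncard * f (chainStabilizer σ.1) = ∑ σ ∈ Finset.univ.filter
        (fun σ : Set (Subgroup Γ) => IsPChain p σ ∧ ∀ P ∈ σ, P ≤ G),
          (-1) ^ σ.ncard * f (chainStabilizer σ) :=
    fin_sub (fun σ => IsPChain p σ ∧ ∀ P ∈ σ, P ≤ G)
      (fun σ => (-1) ^ σ.ncard * f (chainStabilizer σ))
  rw [e1, e2, finsum_eq_sum_of_fintype,
    ← Finset.sum_filter_add_sum_filter_not (Finset.univ.filter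
    (fun σ : Set (Subgroup Γ) => IsPChain p σ)) (fun σ => ∀ P ∈ σ, P ≤ G),
    Finset.filter_filter, sub_eq_add_neg]
  congr 1
  rw [← Finset.sum_filter_add_sum_filter_not (Finset.filter (fun σ => ¬ ∀ P ∈ σ, P ≤ G)
    (Finset.univ.filter (fun σ : Set (Subgroup Γ) => IsPChain p σ)))
    (fun σ => G ⊓ low G σ = ⊥)]
  have hT : ∀ σ : Set (Subgroup Γ), f (⊤ ⊓ chainStabilizer σ) = f (chainStabilizer σ) :=
    fun σ => by rw [top_inf_eq]
  have e3 : ∑ σ ∈ (Finset.filter (fun σ => ¬ ∀ P ∈ σ, P ≤ G)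
    (Finset.univ.filter (fun σ : Set (Subgroup Γ) => IsPChain p σ))).filter
      (fun σ => ¬ G ⊓ low G σ = ⊥), (-1) ^ σ.ncard * f (chainStabilizer σ) = 0 := by
    have h0 := tg_sum (p := p) (M := G) (K := ⊤) (le_of_eq (Subgroup.normalizer_eq_top_iff.2
      hG).symm) ((Finset.filter (fun σ => ¬ ∀ P ∈ σ, P ≤ G)
      (Finset.univ.filter (fun σ : Set (Subgroup Γ) => IsPChain p σ))).filter
      (fun σ => ¬ G ⊓ low G σ = ⊥)) ?_ f
    · rw [← h0]
      refine Finset.sum_congr rfl fun σ _ => ?_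
      rw [hT]
    · intro σ hσ
      obtain ⟨h1, h2⟩ := Finset.mem_filter.1 hσ
      obtain ⟨h3, h4⟩ := Finset.mem_filter.1 h1
      obtain ⟨-, h5⟩ := Finset.mem_filter.1 h3
      have h6 : ∃ P ∈ σ, ¬ P ≤ G := by
        push Not at h4
        exact h4
      refine ⟨h5, h6, h2, Finset.mem_filter.2 ⟨Finset.mem_filter.2 ⟨Finset.mem_filter.2
        ⟨Finset.mem_univ _, tg_chain h5 h6 h2⟩, ?_⟩, ?_⟩⟩
      · obtain ⟨P, hP, hPM⟩ := tg_bad h6
        exact fun h => hPM (h P hP)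
      · rw [low_tg]
        exact h2
  rw [e3, add_zero, ← Finset.sum_fiberwise _ (fun σ => low G σ), ← Finset.sum_neg_distrib]
  refine Finset.sum_congr rfl fun U _ => ?_
  by_cases hU : IsPGroup p U ∧ U ≠ ⊥ ∧ G ⊓ U = ⊥
  · obtain ⟨hU1, hU2, hU3⟩ := hU
    have hUG : ¬ U ≤ G := by
      intro h
      apply hU2
      rw [← hU3]
      exact (inf_eq_right.2 h).symm
    rw [if_pos ⟨hU1, hU2, hU3⟩, LL_eq f hU1 hU2 le_top, neg_neg]
    refine Finset.sum_congr ?_ fun σ _ => by rw [hT]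
    ext σ
    simp only [Finset.mem_filter, Finset.mem_univ, true_and]
    constructor
    · rintro ⟨⟨⟨h1, h2⟩, h3⟩, h4⟩
      have h6 : ∃ P ∈ σ, ¬ P ≤ G := by
        push Not at h2
        exact h2
      obtain ⟨h7, h8, h9⟩ := low_mem h1.chain h6
      rw [h4] at h7 h8 h9
      refine ⟨h1, h7, fun P hP => ⟨?_, le_top⟩⟩
      by_cases h10 : P ≤ G
      · exfalso
        rcases h1.chain.total hP h7 with h11 | h11
        · apply h1.ne_bot P hP
          rw [← le_bot_iff, ← hU3]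
          exact le_inf h10 h11
        · exact h8 (h11.trans h10)
      · exact h9 P hP h10
    · rintro ⟨h1, h2, h3⟩
      have h6 : ∃ P ∈ σ, ¬ P ≤ G := ⟨U, h2, hUG⟩
      obtain ⟨h7, h8, h9⟩ := low_mem h1.chain h6
      have h10 : low G σ = U := le_antisymm (h9 U h2 hUG) (h3 _ h7).1
      refine ⟨⟨⟨h1, fun h => hUG (h U h2)⟩, ?_⟩, h10⟩
      rw [h10]
      exact hU3
  · rw [if_neg hU, neg_zero]
    refine Finset.sum_eq_zero fun σ hσ => ?_
    exfalso
    apply hU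
    simp only [Finset.mem_filter, Finset.mem_univ, true_and] at hσ
    obtain ⟨⟨⟨h1, h2⟩, h3⟩, h4⟩ := hσ
    have h6 : ∃ P ∈ σ, ¬ P ≤ G := by
      push Not at h2
      exact h2
    obtain ⟨h7, h8, h9⟩ := low_mem h1.chain h6
    rw [h4] at h7 h3
    exact ⟨h1.isPGroup U h7, h1.ne_bot U h7, h3⟩

end Pool.Agent.Q18.NB
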