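import Pool.Agent.Q18.LF.Stm

/-!
# The chains above `Q` and the chains of `N_Γ(Q)/Q`: COR
-/

set_option autoImplicit false

open scoped Classical BigOperators

noncomputable section

set_option linter.unusedSectionVars false

namespace Pool.Agent.Q18.NB

open Pool.Agent.Q18.LF
open Pool.Agent.Y63.NV
open Pool.Agent.Y63.KR

section up

variable {Γ : Type} [Group Γ] {Q : Subgroup Γ}

/-- the projection -/
def prj (Q : Subgroup Γ) : Subgroup.normalizer (Q : Set Γ) →* NQ Q :=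
  QuotientGroup.mk' (Q.subgroupOf (Subgroup.normalizer (Q : Set Γ)))

theorem prj_surj (Q : Subgroup Γ) : Function.Surjective (prj Q) := QuotientGroup.mk'_surjective _

theorem prj_eq_one {x : Subgroup.normalizer (Q : Set Γ)} : prj Q x = 1 ↔ (x : Γ) ∈ Q := by
  unfold prj
  rw [QuotientGroup.mk'_apply, QuotientGroup.eq_one_iff, Subgroup.mem_subgroupOf]

theorem mem_up {K : Subgroup (NQ Q)} {x : Γ} :
    x ∈ up Q K ↔ ∃ h : x ∈ Subgroup.normalizer (Q : Set Γ), prj Q ⟨x, h⟩ ∈ K := by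
  unfold Pool.Agent.Q18.LF.up
  constructor
  · rintro ⟨y, hy, rfl⟩
    exact ⟨y.2, hy⟩
  · rintro ⟨h, hx⟩
    exact ⟨⟨x, h⟩, hx, rfl⟩

theorem coe_mem_up {K : Subgroup (NQ Q)} {x : Subgroup.normalizer (Q : Set Γ)} :
    (x : Γ) ∈ up Q K ↔ prj Q x ∈ K := by
  rw [mem_up]
  exact ⟨fun ⟨_, h⟩ => h, fun h => ⟨x.2, h⟩⟩

theorem up_le (K : Subgroup (NQ Q)) : up Q K ≤ Subgroup.normalizer (Q : Set Γ) := by
  intro x hx
  exact (mem_up.1 hx).1

theorem le_up (K : Subgroup (NQ Q)) : Q ≤ up Q K := by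
  intro x hx
  rw [mem_up]
  refine ⟨Subgroup.le_normalizer hx, ?_⟩
  rw [prj_eq_one.2 hx]
  exact K.one_mem

theorem up_mono {K K' : Subgroup (NQ Q)} : up Q K ≤ up Q K' ↔ K ≤ K' := by
  constructor
  · intro h y hy
    obtain ⟨x, rfl⟩ := prj_surj Q y
    exact coe_mem_up.1 (h (coe_mem_up.2 hy))
  · intro h x hx
    obtain ⟨h1, h2⟩ := mem_up.1 hx
    exact mem_up.2 ⟨h1, h h2⟩

theorem up_inj : Function.Injective (up Q) := fun K K' h =>
  le_antisymm (up_mono.1 h.le) (up_mono.1 h.ge)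

/-- the image -/
def dn (Q P : Subgroup Γ) : Subgroup (NQ Q) :=
  (P.subgroupOf (Subgroup.normalizer (Q : Set Γ))).map (prj Q)

theorem up_dn {P : Subgroup Γ} (h1 : Q ≤ P) (h2 : P ≤ Subgroup.normalizer (Q : Set Γ)) :
    up Q (dn Q P) = P := by
  ext x
  rw [mem_up]
  constructor
  · rintro ⟨h, y, hy, hyx⟩
    have h3 : prj Q (y⁻¹ * ⟨x, h⟩) = 1 := by
      rw [map_mul, map_inv, hyx, inv_mul_cancel]
    rw [prj_eq_one] at h3
    have h4 : (y : Γ) ∈ P := hy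
    have h5 := P.mul_mem h4 (h1 h3)
    have e : (y : Γ) * ((y⁻¹ * ⟨x, h⟩ : Subgroup.normalizer (Q : Set Γ)) : Γ) = x := by
      rw [Subgroup.coe_mul, Subgroup.coe_inv]
      group
    rwa [e] at h5
  · intro hx
    exact ⟨h2 hx, ⟨x, h2 hx⟩, hx, rfl⟩

theorem up_bot : up Q ⊥ = Q := by
  ext x
  rw [mem_up]
  constructor
  · rintro ⟨h, h1⟩
    rw [Subgroup.mem_bot, prj_eq_one] at h1
    exact h1
  · intro hx
    exact ⟨Subgroup.le_normalizer hx, by rw [Subgroup.mem_bot, prj_eq_one]; exact hx⟩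

theorem lt_up {K : Subgroup (NQ Q)} : Q < up Q K ↔ K ≠ ⊥ := by
  constructor
  · rintro h rfl
    rw [up_bot] at h
    exact lt_irrefl _ h
  · intro h
    refine lt_of_le_of_ne (le_up K) fun h1 => h ?_
    apply up_inj
    rw [up_bot]
    exact h1.symm

/-- the projection on subgroups -/
def prjK (Q : Subgroup Γ) (K : Subgroup (NQ Q)) : up Q K →* K where
  toFun x := ⟨prj Q ⟨x.1, up_le K x.2⟩, coe_mem_up.1 x.2⟩
  map_one' := Subtype.ext (map_one (prj Q))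
  map_mul' x y := Subtype.ext (map_mul (prj Q) ⟨x.1, up_le K x.2⟩ ⟨y.1, up_le K y.2⟩)

theorem prjK_surj (K : Subgroup (NQ Q)) : Function.Surjective (prjK Q K) := by
  rintro ⟨y, hy⟩
  obtain ⟨x, rfl⟩ := prj_surj Q y
  exact ⟨⟨x, coe_mem_up.2 hy⟩, rfl⟩

theorem prjK_ker (K : Subgroup (NQ Q)) : (prjK Q K).ker = Q.subgroupOf (up Q K) := by
  ext x
  rw [MonoidHom.mem_ker, Subgroup.mem_subgroupOf]
  constructor
  · intro h
    have h1 : prj Q ⟨x.1, up_le K x.2⟩ = 1 := congrArg Subtype.val h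
    exact prj_eq_one.1 h1
  · intro h
    exact Subtype.ext (prj_eq_one.2 h)

theorem up_pgroup {p : ℕ} (hQ : IsPGroup p Q) {K : Subgroup (NQ Q)} :
    IsPGroup p (up Q K) ↔ IsPGroup p K := by
  constructor
  · intro h
    exact h.of_surjective (prjK Q K) (prjK_surj K)
  · intro h x
    obtain ⟨k, hk⟩ := h (prjK Q K x)
    have h1 : (x ^ p ^ k) ∈ (prjK Q K).ker := by
      rw [MonoidHom.mem_ker, map_pow, hk]
    rw [prjK_ker, Subgroup.mem_subgroupOf] at h1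
    obtain ⟨l, hl⟩ := hQ ⟨_, h1⟩
    refine ⟨k + l, Subtype.ext ?_⟩
    have h2 := congrArg Subtype.val hl
    rw [pow_add, pow_mul]
    exact h2

theorem up_conj (x : Subgroup.normalizer (Q : Set Γ)) (K : Subgroup (NQ Q)) :
    conjSub (x : Γ) (up Q K) = up Q (conjSub (prj Q x) K) := by
  ext y
  rw [mem_conjSub, mem_up, mem_up]
  constructor
  · rintro ⟨h, h1⟩
    have hy : y ∈ Subgroup.normalizer (Q : Set Γ) := by
      have h2 := Subgroup.mul_mem _ (Subgroup.mul_mem _ x.2 h) (Subgroup.inv_mem _ x.2)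
      have e : (x : Γ) * ((x : Γ)⁻¹ * y * x) * (x : Γ)⁻¹ = y := by group
      rwa [e] at h2
    refine ⟨hy, ?_⟩
    rw [mem_conjSub, ← map_inv, ← map_mul, ← map_mul]
    exact h1
  · rintro ⟨hy, h1⟩
    refine ⟨Subgroup.mul_mem _ (Subgroup.mul_mem _ (Subgroup.inv_mem _ x.2) hy) x.2, ?_⟩
    rw [mem_conjSub, ← map_inv, ← map_mul, ← map_mul] at h1
    exact h1

theorem up_stab (σ : Set (Subgroup (NQ Q))) : up Q (chainStabilizer σ) =
    Subgroup.normalizer (Q : Set Γ) ⊓ Subgroup.normalizer (Q : Set Γ) ⊓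
      chainStabilizer (up Q '' σ) := by
  ext x
  rw [inf_idem, Subgroup.mem_inf, mem_up, mem_chainStabilizer]
  constructor
  · rintro ⟨h, h1⟩
    refine ⟨h, ?_⟩
    rintro _ ⟨K, hK, rfl⟩
    have h2 := up_conj ⟨x, h⟩ K
    rw [mem_chainStabilizer] at h1
    rw [h1 K hK] at h2
    exact h2
  · rintro ⟨h, h1⟩
    refine ⟨h, ?_⟩
    rw [mem_chainStabilizer]
    intro K hK
    have h2 := up_conj ⟨x, h⟩ K
    have h3 := h1 _ ⟨K, hK, rfl⟩
    exact up_inj (h2.symm.trans h3)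

end up

theorem cor : S_COR := by
  intro p _ Γ _ _ f Q hQ
  unfold LL
  symm
  refine finsum_eq_of_bijective (e := fun σ : {σ : Set (Subgroup (NQ Q)) // IsPChain p σ} =>
    (⟨up Q '' σ.1, ⟨⟨?_, ?_, ?_⟩, ?_⟩⟩ : CQ p Q (Subgroup.normalizer (Q : Set Γ)))) ?_ ?_
  · rintro _ ⟨P, hP, rfl⟩ _ ⟨P', hP', rfl⟩ _
    rcases σ.2.chain.total hP hP' with h1 | h1
    · exact Or.inl (up_mono.2 h1)
    · exact Or.inr (up_mono.2 h1)
  · rintro _ ⟨P, hP, rfl⟩
    exact (up_pgroup hQ).2 (σ.2.isPGroup P hP)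
  · rintro _ ⟨P, hP, rfl⟩
    exact (bot_le.trans_lt (lt_up.2 (σ.2.ne_bot P hP))).ne'
  · rintro _ ⟨P, hP, rfl⟩
    exact ⟨lt_up.2 (σ.2.ne_bot P hP), up_le P⟩
  · constructor
    · intro σ σ' h
      apply Subtype.ext
      exact up_inj.image_injective (congrArg Subtype.val h)
    · intro τ
      have hup : ∀ P ∈ τ.1, up Q (dn Q P) = P := fun P hP =>
        up_dn (τ.2.2 P hP).1.le (τ.2.2 P hP).2
      refine ⟨⟨dn Q '' τ.1, ⟨?_, ?_, ?_⟩⟩, ?_⟩
      · rintro _ ⟨P, hP, rfl⟩ _ ⟨P', hP', rfl⟩ _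
        rcases τ.2.1.chain.total hP hP' with h1 | h1
        · exact Or.inl (up_mono.1 (by rw [hup P hP, hup P' hP']; exact h1))
        · exact Or.inr (up_mono.1 (by rw [hup P hP, hup P' hP']; exact h1))
      · rintro _ ⟨P, hP, rfl⟩
        rw [← up_pgroup hQ, hup P hP]
        exact τ.2.1.isPGroup P hP
      · rintro _ ⟨P, hP, rfl⟩
        rw [← lt_up, hup P hP]
        exact (τ.2.2 P hP).1
      · apply Subtype.ext
        change up Q '' (dn Q '' τ.1) = τ.1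
        ext P
        constructor
        · rintro ⟨_, ⟨P', hP', rfl⟩, rfl⟩
          rw [hup P' hP']
          exact hP'
        · intro hP
          exact ⟨dn Q P, ⟨P, hP, rfl⟩, hup P hP⟩
  · intro σ
    change (-1) ^ σ.1.ncard * f (up Q (chainStabilizer σ.1)) =
      (-1) ^ (up Q '' σ.1).ncard * f (Subgroup.normalizer (Q : Set Γ) ⊓
        Subgroup.normalizer (Q : Set Γ) ⊓ chainStabilizer (up Q '' σ.1))
    rw [← up_stab, Set.ncard_image_of_injective _ up_inj]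

end Pool.Agent.Q18.NB
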