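import Pool.Agent.Q18.NB.Comb
import Pool.Agent.Q18.NB.Cor
import Pool.Agent.Q18.LF.Stm2

/-!
# Normal `p`-subgroups, TI: KRN, TI, TIL
-/

set_option autoImplicit false

open scoped Classical BigOperators

noncomputable section

set_option linter.unusedSectionVars false
set_option linter.unusedVariables false

namespace Pool.Agent.Q18.NB

open Pool.Agent.Q18.LF
open Pool.Agent.Y63.NV
open Pool.Agent.Y63.KR
open Pool.Agent.Y63.AWC (IsIrreducibleCharacter pSubgroupSetoid irr_comp)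
open Pool.Agent.Y171.NV (card_mul_alt numIrrInd_conj)

section

variable {p : ℕ} {Γ : Type} [Group Γ] [Finite Γ]

theorem lower_stab {Z : Subgroup Γ} {σ : Set (Subgroup Γ)} (hσ : IsChain (· ≤ ·) σ) {x : Γ}
    (hx : x ∈ chainStabilizer σ) : conjSub x (lower Z σ) = lower Z σ := by
  rcases lower_cases hσ Z with h | h
  · rw [h]
    exact Subgroup.map_bot _
  · exact mem_chainStabilizer.1 hx _ h.1

theorem tog_stab_le {Z : Subgroup Γ} (hZ : Z.Normal) {σ : Set (Subgroup Γ)}
    (hσ : IsChain (· ≤ ·) σ) : chainStabilizer σ ≤ chainStabilizer (toggle Z σ) := by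
  intro x hx
  have h1 : conjSub x (toggled Z σ) = toggled Z σ := by
    unfold toggled
    have h2 : conjSub x (lower Z σ ⊔ Z) = conjSub x (lower Z σ) ⊔ conjSub x Z :=
      Subgroup.map_sup _ _ _
    rw [h2, lower_stab hσ hx, conjSub_eq_iff.2 (by
      rw [Subgroup.normalizer_eq_top_iff.2 hZ]; trivial)]
  rw [mem_chainStabilizer]
  intro P hP
  unfold toggle at hP
  split_ifs at hP
  · exact mem_chainStabilizer.1 hx P hP.1
  · rcases hP with rfl | hP
    · exact h1
    · exact mem_chainStabilizer.1 hx P hP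

theorem tog_chain [Fact p.Prime] {Z : Subgroup Γ} (hZ : Z.Normal) (hZp : IsPGroup p Z)
    (hZ1 : Z ≠ ⊥) {σ : Set (Subgroup Γ)} (hσ : IsPChain p σ) : IsPChain p (toggle Z σ) := by
  have hLp : IsPGroup p (lower Z σ) := by
    rcases lower_cases hσ.chain Z with h | h
    · rw [h]; exact IsPGroup.of_bot
    · exact hσ.isPGroup _ h.1
  have hTp : IsPGroup p (toggled Z σ) := IsPGroup.to_sup_of_normal_right hLp hZp
  have hT1 : toggled Z σ ≠ ⊥ := fun h => hZ1 (le_bot_iff.mp (h ▸ le_toggled Z σ))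
  by_cases h : toggled Z σ ∈ σ
  · have h1 : toggle Z σ = σ \ {toggled Z σ} := if_pos h
    rw [h1]
    exact ⟨hσ.chain.mono Set.sdiff_subset, fun P hP => hσ.isPGroup P hP.1,
      fun P hP => hσ.ne_bot P hP.1⟩
  · have h1 : toggle Z σ = insert (toggled Z σ) σ := if_neg h
    rw [h1]
    refine ⟨?_, ?_, ?_⟩
    · refine hσ.chain.insert fun P hP _ => ?_
      rcases comparable (U := Z) hσ.chain hP with h2 | h2
      · exact Or.inr h2
      · exact Or.inl h2
    · rintro P (rfl | hP)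
      · exact hTp
      · exact hσ.isPGroup P hP
    · rintro P (rfl | hP)
      · exact hT1
      · exact hσ.ne_bot P hP

end

theorem krn : S_KRN := by
  intro p _ F _ _ _ red J _ _ Z hZ hZp hZ1 B hB
  have h1 : numDzBlock p red B = 0 := by
    unfold numDzBlock
    rw [Nat.card_eq_zero]
    left
    constructor
    rintro ⟨χ, hχ, _⟩
    exact wtn p J ⊥ Z χ inferInstance hZ hZp (bot_lt_iff_ne_bot.2 hZ1) hχ
  rw [h1, Nat.cast_zero]
  have hpos : (Nat.card J : ℤ) ≠ 0 := by exact_mod_cast Nat.card_pos.ne'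
  refine (mul_eq_zero.1 ?_).resolve_left hpos
  rw [card_mul_alt (fun H => (numIrrInd red H B : ℤ)) (fun g H => by rw [numIrrInd_conj])]
  have : Fintype {σ : Set (Subgroup J) // IsPChain p σ} := Fintype.ofFinite _
  rw [finsum_eq_sum_of_fintype]
  have hst : ∀ σ : Set (Subgroup J), IsPChain p σ →
      chainStabilizer (toggle Z σ) = chainStabilizer σ := by
    intro σ hσ
    refine le_antisymm ?_ (tog_stab_le hZ hσ.chain)
    have h2 := tog_stab_le hZ (tog_chain hZ hZp hZ1 hσ).chain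
    rw [toggle_toggle] at h2
    exact h2
  refine Finset.sum_involution (fun σ _ => ⟨toggle Z σ.1, tog_chain hZ hZp hZ1 σ.2⟩) ?_ ?_ ?_ ?_
  · intro σ _
    change (-1 : ℤ) ^ σ.1.ncard * ((Nat.card (chainStabilizer σ.1) : ℤ) *
        (numIrrInd red (chainStabilizer σ.1) B : ℤ)) +
      (-1) ^ (toggle Z σ.1).ncard * ((Nat.card (chainStabilizer (toggle Z σ.1)) : ℤ) *
        (numIrrInd red (chainStabilizer (toggle Z σ.1)) B : ℤ)) = 0
    rw [ncard_toggle, hst σ.1 σ.2]
    ring
  · intro σ _ _ h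
    have h1 : toggle Z σ.1 = σ.1 := congrArg Subtype.val h
    have h2 := ncard_toggle Z σ.1
    rw [h1] at h2
    have h3 : ((-1 : ℤ)) ^ σ.1.ncard ≠ 0 := pow_ne_zero _ (by norm_num)
    omega
  · intro σ _
    exact Finset.mem_univ _
  · intro σ _
    apply Subtype.ext
    exact toggle_toggle Z σ.1

theorem ti : S_TI := by
  intro p _ Γ _ _ G hG hTI Q hQ hGQ
  obtain ⟨P, hP⟩ := hQ.exists_le_sylow
  by_cases hQP : Q = P
  · left
    subst hQP
    have h1 : ((P : Subgroup Γ).subgroupOf (Subgroup.normalizer ((P : Subgroup Γ) : Set Γ))).index ∣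
        (P : Subgroup Γ).index := Subgroup.relIndex_dvd_index_of_le Subgroup.le_normalizer
    intro h
    exact P.not_dvd_index (h.trans h1)
  · right
    have hlt : Q < P := lt_of_le_of_ne hP hQP
    have h1 : Q < Subgroup.normalizer (Q : Set Γ) ⊓ (P : Subgroup Γ) :=
      nrm_grow P.isPGroup' hlt
    have hN : ∀ n ∈ Subgroup.normalizer (Q : Set Γ), conjSub n (P : Subgroup Γ) = P := by
      intro n hn
      by_contra hne
      have h2 : (n • P : Sylow p Γ) ≠ P := by
        intro h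
        apply hne
        have h3 : ((n • P : Sylow p Γ) : Subgroup Γ) = conjSub n (P : Subgroup Γ) := rfl
        rw [← h3, h]
      apply hTI _ _ h2
      rw [eq_top_iff, ← hGQ]
      refine sup_le_sup_left (le_inf ?_ hP) G
      have h4 : conjSub n Q = Q := conjSub_eq_iff.2 hn
      rw [← h4]
      exact conjSub_le hP
    set R := Subgroup.normalizer (Q : Set Γ) ⊓ (P : Subgroup Γ) with hR
    refine ⟨dn Q R, ?_, ?_, ?_⟩
    · constructor
      intro y hy a
      obtain ⟨a, rfl⟩ := prj_surj Q a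
      obtain ⟨x, hx, rfl⟩ := hy
      rw [← map_inv, ← map_mul, ← map_mul]
      refine ⟨a * x * a⁻¹, ?_, rfl⟩
      have hx' : (x : Γ) ∈ (P : Subgroup Γ) := (Subgroup.mem_inf.1 hx).2
      refine Subgroup.mem_inf.2 ⟨(a * x * a⁻¹ : Subgroup.normalizer (Q : Set Γ)).2, ?_⟩
      have h5 := conj_mem_conjSub (g := (a : Γ)) hx'
      rw [hN a a.2] at h5
      exact h5
    · rw [← up_pgroup hQ, up_dn h1.le inf_le_left]
      exact P.isPGroup'.to_le inf_le_right
    · rw [← lt_up, up_dn h1.le inf_le_left]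
      exact h1

theorem til : S_TIL := by
  intro p _ Γ _ _ G hG hTI L hL S₁ S₂ hne h
  have hmap : ∀ S : Sylow p L, ∃ P : Sylow p Γ, (S : Subgroup L).map L.subtype ≤ P := fun S =>
    (S.isPGroup'.map L.subtype).exists_le_sylow
  obtain ⟨P₁, hP₁⟩ := hmap S₁
  obtain ⟨P₂, hP₂⟩ := hmap S₂
  have hP : P₁ ≠ P₂ := by
    rintro rfl
    apply hne
    have hsub : ∀ S : Sylow p L, (S : Subgroup L).map L.subtype ≤ P₁ →
        (S : Subgroup L) = (P₁ : Subgroup Γ).subgroupOf L := by
      intro S hS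
      have h1 : (S : Subgroup L) ≤ (P₁ : Subgroup Γ).subgroupOf L := fun x hx =>
        hS ⟨x, hx, rfl⟩
      exact (S.is_maximal' (P₁.isPGroup'.comap_subtype) h1).symm
    exact Sylow.ext ((hsub S₁ hP₁).trans (hsub S₂ hP₂).symm)
  have h1 : (S₁ : Subgroup L) ⊓ (S₂ : Subgroup L) ≤ G.subgroupOf L := by
    intro x hx
    obtain ⟨hx1, hx2⟩ := Subgroup.mem_inf.1 hx
    rw [Subgroup.mem_subgroupOf]
    exact hTI P₁ P₂ hP (Subgroup.mem_inf.2 ⟨hP₁ ⟨x, hx1, rfl⟩, hP₂ ⟨x, hx2, rfl⟩⟩)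
  rw [sup_eq_left.2 h1, Subgroup.subgroupOf_eq_top] at h
  exact absurd h (not_le_of_gt hL)

end Pool.Agent.Q18.NB
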