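import Pool.Agent.Q18.NB.Sep
import Pool.Agent.Q18.K.Kr
import Pool.Agent.Y63.NV.FinL286
import Pool.Agent.Y930.NV.Cen

/-!
# Separation: SEPX
-/

set_option autoImplicit false

open scoped Classical BigOperators

noncomputable section

set_option linter.unusedSectionVars false
set_option linter.unusedVariables false

namespace Pool.Agent.Q18.NB

open Pool.Agent.Q18.LF
open Pool.Agent.Y63.NV
open Pool.Agent.Y63.KR
open Pool.Agent.Y63.AWC (IsIrreducibleCharacter pSubgroupSetoid irr_comp)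
open Pool.Agent.Y286.NV (exists_sep ZG res_classFun blkF inv_block sup_conj)
open Pool.Agent.Y171.NV (card_mul_alt numIrrInd_conj)

section

variable {F : Type} [Field F] {Γ : Type} [Group Γ]

/-- the functional of a block of `Γ` -/
def blkG (G : Subgroup Γ) {B : (Γ → F) → F} (hB : IsBlock B) : ZG F G →ₗ[F] F where
  toFun z := B z.1
  map_add' a b := hB.add _ _ (fun g x => a.2.conj g x) (fun g x => b.2.conj g x)
  map_smul' c a := hB.smul c _ (fun g x => a.2.conj g x)

/-- the restriction of a functional to functions on `G` -/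
def resB (G : Subgroup Γ) (B : (Γ → F) → F) : (G → F) → F :=
  fun f => B (fun x : Γ => if h : x ∈ G then f ⟨x, h⟩ else 0)

theorem resB_eq (G : Subgroup Γ) (B : (Γ → F) → F) {z : Γ → F} (hz : InZ G z) :
    resB G B (fun x : G => z x) = B z := by
  unfold resB
  congr 1
  funext x
  by_cases h : x ∈ G
  · rw [dif_pos h]
  · rw [dif_neg h, hz.supp x h]

theorem inf_conj' (G : Subgroup Γ) [G.Normal] (g : Γ) (Q : Subgroup Γ) :
    G ⊓ conjSub g Q = ⊥ ↔ G ⊓ Q = ⊥ := by
  have h1 : ∀ (g : Γ) (Q : Subgroup Γ), G ⊓ Q = ⊥ → G ⊓ conjSub g Q = ⊥ := by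
    intro g Q h
    rw [eq_bot_iff]
    intro x hx
    obtain ⟨y, hy, hyx⟩ := hx.2
    have h2 : g * y * g⁻¹ = x := hyx
    have h3 : y ∈ G := by
      have h4 := Subgroup.Normal.conj_mem ‹G.Normal› x hx.1 g⁻¹
      have h5 : g⁻¹ * x * g⁻¹⁻¹ = y := by rw [← h2]; group
      rwa [h5] at h4
    have h6 : y ∈ G ⊓ Q := ⟨h3, hy⟩
    rw [h, Subgroup.mem_bot] at h6
    rw [Subgroup.mem_bot, ← h2, h6]
    group
  constructor
  · intro h
    have h2 := h1 g⁻¹ (conjSub g Q) h
    rwa [← conjSub_mul, inv_mul_cancel, conjSub_one] at h2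
  · exact h1 g Q

end

theorem sepx : S_SEPX := by
  intro p _ F _ _ _ red Γ _ _ G hG hc h B hB
  have : Fintype (Subgroup Γ) := Fintype.ofFinite _
  have hp0 : (p : ℤ) ≠ 0 := by exact_mod_cast (Fact.out : p.Prime).ne_zero
  obtain ⟨z, -, h2, h3, h4, h5, h6, h7⟩ := master p red G (blkG G hB)
  set c : F := blkG G hB z with hcdef
  have hb : ∀ w : ZG F G, B w.1 = blkG G hB w := fun w => rfl
  have hb' : ∀ w : ZG F G, resB G B (fun y : G => w.1 y) = blkG G hB w :=
    fun w => resB_eq G B w.2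
  have hz := h z.1 z.2 c
  -- the group Γ
  have e1 : KA p red z.1 c =
      (Nat.card Γ : ℤ) * alternatingSum p Γ (fun H => (numIrrInd red H B : ℤ)) := by
    rw [card_mul_alt (fun H => (numIrrInd red H B : ℤ)) fun g H => by rw [numIrrInd_conj]]
    unfold KA
    refine finsum_congr fun σ => ?_
    have e2 : Knum red (fun x : chainStabilizer σ.1 => z.1 x) c =
        numIrrInd red (chainStabilizer σ.1) B := by
      rw [hcdef, h4 (chainStabilizer σ.1)]
      unfold numIrrInd
      refine Nat.card_congr (Equiv.subtypeEquivRight fun χ => and_congr_right fun hχ => ?_)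
      constructor
      · intro h8 f hf
        exact Pool.Agent.Y63.NV.B286.frob p hc
          (Pool.Agent.Q18.K.s_kblk p F red Γ σ.1 χ σ.2 hχ) hB
          (fun w hw => h8 ⟨w, hw⟩) f hf
      · intro h8 w
        exact h8 w.1 (fun g x => w.2.conj g x)
    rw [e2]
  have e3 : Nw p red (⊥ : Subgroup Γ) z.1 c = numDzBlock p red B := by
    rw [hcdef, h5]
    unfold numDzBlock
    refine Nat.card_congr (Equiv.subtypeEquivRight fun χ => and_congr_right fun hχ => ?_)
    constructor
    · intro h8 f hf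
      exact Pool.Agent.Y63.NV.B286.frob p hc
        (Pool.Agent.Y930.NV.cvh F red Γ χ hχ.irr) hB
        (fun w hw => h8 ⟨w, hw⟩) f hf
    · intro h8 w
      exact h8 w.1 (fun g x => w.2.conj g x)
  -- the group G
  have e4 : KA p red (fun x : G => z.1 x) c =
      (Nat.card G : ℤ) * alternatingSum p G (fun H => (numIrrG red G B H : ℤ)) := by
    rw [cmag]
    unfold KA
    refine finsum_congr fun σ => ?_
    rw [← h6 (chainStabilizer σ.1) B hb]
  have e5 : Nw p red (⊥ : Subgroup G) (fun x : G => z.1 x) c = numDzG p red G B := h7 B hb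
  -- the sections
  have e6 : ∀ U : Subgroup Γ, KA p red (pz U z.1) c = (Nat.card (NQ U) : ℤ) *
      alternatingSum p (NQ U) (fun H => (numIrrCov red G U (resB G B) H : ℤ)) := by
    intro U
    rw [cma p F red Γ G (resB G B) U]
    unfold KA
    refine finsum_congr fun σ => ?_
    rw [← h2 U (chainStabilizer σ.1) (resB G B) hb']
  have e7 : ∀ U : Subgroup Γ, Nw p red (⊥ : Subgroup (NQ U)) (pz U z.1) c =
      numDzCov p red G U (resB G B) := fun U => h3 U (resB G B) hb'
  have horb := orbit_int (Γ := Γ) p (fun U => if G ⊔ U = ⊤ ∧ G ⊓ U = ⊥ then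
    alternatingSum p (NQ U) (fun H => (numIrrCov red G U (resB G B) H : ℤ)) -
      numDzCov p red G U (resB G B) else 0) (by
      intro g Q
      have h8 : (G ⊔ conjSub g Q = ⊤ ∧ G ⊓ conjSub g Q = ⊥) ↔ (G ⊔ Q = ⊤ ∧ G ⊓ Q = ⊥) :=
        and_congr (by rw [show (G ⊔ conjSub g Q = ⊤) ↔ (G ⊔ Q = ⊤) from sup_conj G g Q])
          (inf_conj' G g Q)
      by_cases h9 : G ⊔ Q = ⊤ ∧ G ⊓ Q = ⊥
      · rw [if_pos h9, if_pos (h8.2 h9), cnv, cnvd]
      · rw [if_neg h9, if_neg (fun h => h9 (h8.1 h))])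
  have e8 : (p : ℤ) * ∑ᶠ U : Subgroup Γ, (if IsPGroup p U ∧ G ⊔ U = ⊤ ∧ G ⊓ U = ⊥ then
        (KA p red (pz U z.1) c -
          (Nat.card (NQ U) : ℤ) * Nw p red (⊥ : Subgroup (NQ U)) (pz U z.1) c) else 0) =
      (Nat.card Γ : ℤ) * ∑ᶠ c : Quotient (pSubgroupSetoid p Γ),
        (if G ⊔ c.out.1 = ⊤ ∧ G ⊓ c.out.1 = ⊥ then
        (alternatingSum p (NQ c.out.1)
          (fun H => (numIrrCov red G c.out.1 (resB G B) H : ℤ)) -
          numDzCov p red G c.out.1 (resB G B)) else 0) := by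
    rw [horb, finsum_eq_sum_of_fintype, finsum_eq_sum_of_fintype, Finset.mul_sum]
    refine Finset.sum_congr rfl fun U _ => ?_
    by_cases hU : IsPGroup p U
    · by_cases hU2 : G ⊔ U = ⊤ ∧ G ⊓ U = ⊥
      · rw [if_pos ⟨hU, hU2⟩, if_pos hU, if_pos hU2, card_nq, card_compl hc hU2.1 hU2.2, e6 U,
          e7 U]
        ring
      · rw [if_neg (fun h => hU2 h.2), if_pos hU, if_neg hU2, mul_zero, mul_zero]
    · rw [if_neg (fun h => hU h.1), if_neg hU, mul_zero]
  have e9 : (Nat.card Γ : ℤ) = p * Nat.card G := by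
    have h8 := Subgroup.card_eq_card_quotient_mul_card_subgroup G
    rw [hc] at h8
    exact_mod_cast h8
  rw [e1, e3, e4, e5] at hz
  have hposG : (Nat.card G : ℤ) ≠ 0 := by exact_mod_cast Nat.card_pos.ne'
  have e10 : (p : ℤ) * Nat.card G * ((p : ℤ) *
      (alternatingSum p Γ (fun H => (numIrrInd red H B : ℤ)) - numDzBlock p red B)) =
      (p : ℤ) * Nat.card G * ((alternatingSum p G (fun H => (numIrrG red G B H : ℤ)) -
        numDzG p red G B) - ∑ᶠ c : Quotient (pSubgroupSetoid p Γ),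
        (if G ⊔ c.out.1 = ⊤ ∧ G ⊓ c.out.1 = ⊥ then
        (alternatingSum p (NQ c.out.1)
          (fun H => (numIrrCov red G c.out.1 (resB G B) H : ℤ)) -
          numDzCov p red G c.out.1 (resB G B)) else 0)) := by
    have e11 : (p : ℤ) * ((Nat.card Γ : ℤ) *
        (alternatingSum p Γ (fun H => (numIrrInd red H B : ℤ)) - numDzBlock p red B)) =
        p * ((Nat.card G : ℤ) * (alternatingSum p G (fun H => (numIrrG red G B H : ℤ)) -
          numDzG p red G B)) - (Nat.card Γ : ℤ) * ∑ᶠ c : Quotient (pSubgroupSetoid p Γ),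
        (if G ⊔ c.out.1 = ⊤ ∧ G ⊓ c.out.1 = ⊥ then
        (alternatingSum p (NQ c.out.1)
          (fun H => (numIrrCov red G c.out.1 (resB G B) H : ℤ)) -
          numDzCov p red G c.out.1 (resB G B)) else 0) := by
      rw [← e8]
      linear_combination (p : ℤ) * hz
    rw [e9] at e11
    linear_combination e11
  exact mul_left_cancel₀ (mul_ne_zero hp0 hposG) e10

end Pool.Agent.Q18.NB
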