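import Pool.Agent.Q18.NB.Col
import Pool.Agent.Q18.NB.Sepx
import Pool.Agent.Q18.LF.Stm2

/-!
# Index `p`: PBL, PBI
-/

set_option autoImplicit false

open scoped Classical BigOperators

noncomputable section

set_option linter.unusedSectionVars false
set_option linter.unusedVariables false

namespace Pool.Agent.Q18.NB

open Pool.Agent.Q18.LF
open Pool.Agent.Q18.EQ
open Pool.Agent.Y63.NV
open Pool.Agent.Q18.K (CR GP bh ph norm_arg one_cf)
open Pool.Agent.Y63.KR (bz bz_pos bz_neg bz_congr finsum_bz orbit_sum conjSub)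
open Pool.Agent.Y63.AWC (IsIrreducibleCharacter pSubgroupSetoid)
open Pool.Agent.Y286.NV (exists_sep ZG res_classFun blkF)

section

variable {p : ℕ} [Fact p.Prime] {F : Type} [Field F] [IsAlgClosed F] [CharP F p]
  {Γ : Type} [Group Γ] [Finite Γ]

theorem cfz {G : Subgroup Γ} {z : Γ → F} (hz : InZ G z) : IsClassFun z := fun g x => hz.conj g x

/-- the differences for `Γ` and for `G`, for single central elements -/
theorem dif_index (red : integralClosure ℤ ℂ →+* F) (G : Subgroup Γ) [hG : G.Normal]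
    (hc : Nat.card (Γ ⧸ G) = p) (hN : Navarro p red G) {z : Γ → F} (hz : InZ G z) (c : F) :
    (p : ℤ) * ((Nat.card {φ : IB F Γ // colI φ ⟨z, cfz hz⟩ = c} : ℤ) -
        Nat.card {κ : WC p Γ // colW red κ ⟨z, cfz hz⟩ = c}) =
      (Nat.card {φ : IB F G // colI φ ⟨fun x : G => z x, res_classFun hz G⟩ = c} : ℤ) -
        Nat.card {κ : WC p G // colW red κ ⟨fun x : G => z x, res_classFun hz G⟩ = c} := by
  have hp := pgroup_of_card hc
  have h1 := pell' p F Γ G z c hc hz
  have h2 := pewL' p F red Γ G z c hc hz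
  have h3 := GB.gbase Pool.Agent.Y918.NV.winv p F red Γ G hp hN z hz c
  rw [← top_I z (cfz hz) c, ← top_I (fun x : G => z x) (res_classFun hz G) c] at h1
  rw [← top_W (p := p) red z (cfz hz) c,
    ← top_W (p := p) red (fun x : G => z x) (res_classFun hz G) c] at h2
  have e9 : (Nat.card Γ : ℤ) = p * Nat.card G := by
    have h8 := Subgroup.card_eq_card_quotient_mul_card_subgroup G
    rw [hc] at h8
    exact_mod_cast h8
  have hp0 : (p : ℤ) ≠ 0 := by exact_mod_cast (Fact.out : p.Prime).ne_zero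
  have hposG : (Nat.card G : ℤ) ≠ 0 := by exact_mod_cast Nat.card_pos.ne'
  refine mul_left_cancel₀ (mul_ne_zero hp0 hposG) ?_
  rw [e9] at h1 h2
  linear_combination h1 - h2 + (p - 1) * h3

/-- extension by zero -/
theorem ext_zero (G : Subgroup Γ) [hG : G.Normal] {f : G → F}
    (hf : ∀ (γ : Γ) (x : G), f (MulAut.conjNormal γ x) = f x) :
    ∃ z : Γ → F, InZ G z ∧ (fun x : G => z x) = f := by
  refine ⟨fun x => if h : x ∈ G then f ⟨x, h⟩ else 0, ⟨fun g x => ?_, fun x hx => dif_neg hx⟩, ?_⟩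
  · by_cases h : x ∈ G
    · rw [dif_pos h, dif_pos (hG.conj_mem x h g), ← hf g ⟨x, h⟩]
      congr 1
    · rw [dif_neg h, dif_neg]
      intro h'
      apply h
      have h2 := hG.conj_mem _ h' g⁻¹
      have e : g⁻¹ * (g * x * g⁻¹) * g⁻¹⁻¹ = x := by group
      rwa [e] at h2
  · funext x
    exact dif_pos x.2

/-- an invariant block is determined by its values at the elements of `ZG` -/
theorem agree_inv (G : Subgroup Γ) [hG : G.Normal] {L B : (G → F) → F} (hL : IsBlock L)
    (hB : IsBlock B) (hLi : IsInvBlock G L)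
    (h : ∀ z : Γ → F, InZ G z → L (fun x : G => z x) = B (fun x : G => z x)) (f : G → F)
    (hf : IsClassFun f) : L f = B f := by
  have : Fintype G := Fintype.ofFinite G
  refine norm_arg (actP (MulAut.conjNormal (H := G))) (gp_act _) hL hB ?_ ?_ f hf
  · intro u f hf
    refine hLi u⁻¹ f _ hf fun x y hxy => ?_
    change f (MulAut.conjNormal u y) = f x
    congr 1
    apply Subtype.ext
    rw [MulAut.conjNormal_apply, hxy]
    group
  · intro f hf hu
    obtain ⟨z, hz, rfl⟩ := ext_zero G hu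
    exact h z hz

end

theorem pbl : S_PBL := by
  intro p _ F _ _ _ red Γ _ _ G hG hc hN b B hb hbi hB hbB
  have hInf : Infinite F := inferInstance
  have hfW : Finite (WC p Γ) := Quotient.finite _
  have hfW' : Finite (WC p G) := Quotient.finite _
  have hfI : Finite (IB F Γ) := (Pool.Agent.Y914.NV.irr F Γ).1.to_subtype
  have hfI' : Finite (IB F G) := (Pool.Agent.Y914.NV.irr F G).1.to_subtype
  rw [irr_col b, irr_col B, wt_col red b, wt_col red B]
  choose I1 hI1 hI1' using fun φ : IB F Γ => colI_block φ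
  choose W1 hW1 hW1' using fun κ : WC p Γ => colW_block red κ
  choose I2 hI2 hI2' using fun φ : IB F G => colI_block φ
  choose W2 hW2 hW2' using fun κ : WC p G => colW_block red κ
  obtain ⟨z, hz⟩ := exists_sep (Sum.elim (Sum.elim (fun φ => blkG G (hI1 φ))
    (fun κ => blkG G (hW1 κ))) (Sum.elim (fun φ => blkF (G := G) (hI2 φ))
      (fun κ => blkF (G := G) (hW2 κ)))) (blkG G hB)
  have hval : blkG G hB z = B z.1 := rfl
  have hval2 : blkG G hB z = b (fun x : G => z.1 x) := hbB z.1 z.2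
  have h1 := dif_index red G hc hN z.2 (B z.1)
  have e1 : Nat.card {φ : IB F Γ // colI φ ⟨z.1, cfz z.2⟩ = B z.1} =
      Nat.card {φ : IB F Γ // ∀ f, colI φ f = B f.1} := by
    refine Nat.card_congr (Equiv.subtypeEquivRight fun φ => ⟨fun h f => ?_, fun h => h _⟩)
    have h2 := hz (Sum.inl (Sum.inl φ)) ((hI1' φ _).symm.trans h)
    rw [hI1']
    exact Pool.Agent.Y63.NV.B286.frob p hc (hI1 φ) hB
      (fun w hw => LinearMap.congr_fun h2 (⟨w, hw⟩ : ZG F G)) f.1 f.2
  have e2 : Nat.card {κ : WC p Γ // colW red κ ⟨z.1, cfz z.2⟩ = B z.1} =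
      Nat.card {κ : WC p Γ // ∀ f, colW red κ f = B f.1} := by
    refine Nat.card_congr (Equiv.subtypeEquivRight fun κ => ⟨fun h f => ?_, fun h => h _⟩)
    have h2 := hz (Sum.inl (Sum.inr κ)) ((hW1' κ _).symm.trans h)
    rw [hW1']
    exact Pool.Agent.Y63.NV.B286.frob p hc (hW1 κ) hB
      (fun w hw => LinearMap.congr_fun h2 (⟨w, hw⟩ : ZG F G)) f.1 f.2
  have e3 : Nat.card {φ : IB F G // colI φ ⟨fun x : G => z.1 x, res_classFun z.2 G⟩ = B z.1} =
      Nat.card {φ : IB F G // ∀ f, colI φ f = b f.1} := by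
    refine Nat.card_congr (Equiv.subtypeEquivRight fun φ => ⟨fun h f => ?_, fun h => ?_⟩)
    · have h2 := hz (Sum.inr (Sum.inl φ)) ((hI2' φ _).symm.trans h)
      rw [hI2']
      exact (agree_inv G hb (hI2 φ) hbi (fun w hw =>
        (hbB w hw).symm.trans (LinearMap.congr_fun h2 (⟨w, hw⟩ : ZG F G)).symm) f.1 f.2).symm
    · rw [h]
      exact hval2.symm
  have e4 : Nat.card {κ : WC p G // colW red κ ⟨fun x : G => z.1 x, res_classFun z.2 G⟩ =
      B z.1} = Nat.card {κ : WC p G // ∀ f, colW red κ f = b f.1} := by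
    refine Nat.card_congr (Equiv.subtypeEquivRight fun κ => ⟨fun h f => ?_, fun h => ?_⟩)
    · have h2 := hz (Sum.inr (Sum.inr κ)) ((hW2' κ _).symm.trans h)
      rw [hW2']
      exact (agree_inv G hb (hW2 κ) hbi (fun w hw =>
        (hbB w hw).symm.trans (LinearMap.congr_fun h2 (⟨w, hw⟩ : ZG F G)).symm) f.1 f.2).symm
    · rw [h]
      exact hval2.symm
  rw [e1, e2, e3, e4] at h1
  exact h1.symm

section orb

/-- the points with colour in an orbit -/
theorem card_orb {P A C : Type} [Group P] [Finite P] [Finite A] [MulAction P A] [MulAction P C]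
    (f : A → C) (hf : ∀ (x : P) (a : A), f (x • a) = x • f a) (c : C) :
    Nat.card {a : A // ∃ x : P, f a = x • c} =
      Nat.card (MulAction.orbit P c) * Nat.card {a : A // f a = c} := by
  rw [← Nat.card_prod]
  choose g hg using fun d : MulAction.orbit P c => MulAction.mem_orbit_iff.1 d.2
  have hm : ∀ a : {a : A // ∃ x : P, f a = x • c}, f a.1 ∈ MulAction.orbit P c := by
    rintro ⟨a, x, hx⟩
    exact MulAction.mem_orbit_iff.2 ⟨x, hx.symm⟩
  let o : {a : A // ∃ x : P, f a = x • c} → MulAction.orbit P c := fun a => ⟨f a.1, hm a⟩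
  have ho : ∀ a, g (o a) • c = f a.1 := fun a => hg (o a)
  have h1 : ∀ a : {a : A // ∃ x : P, f a = x • c}, f ((g (o a))⁻¹ • a.1) = c := by
    intro a
    rw [hf, ← ho a, inv_smul_smul]
  have h2 : ∀ t : MulAction.orbit P c × {a : A // f a = c}, f (g t.1 • t.2.1) = g t.1 • c := by
    intro t
    rw [hf, t.2.2]
  have h3 : ∀ t : MulAction.orbit P c × {a : A // f a = c},
      o ⟨g t.1 • t.2.1, g t.1, h2 t⟩ = t.1 := by
    intro t
    apply Subtype.ext
    exact (h2 t).trans (hg t.1)
  exact Nat.card_congr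
    { toFun := fun a => (o a, ⟨(g (o a))⁻¹ • a.1, h1 a⟩)
      invFun := fun t => ⟨g t.1 • t.2.1, g t.1, h2 t⟩
      left_inv := fun a => Subtype.ext (smul_inv_smul _ _)
      right_inv := fun t => by
        refine Prod.ext (h3 t) (Subtype.ext ?_)
        change (g (o ⟨g t.1 • t.2.1, g t.1, h2 t⟩))⁻¹ • g t.1 • t.2.1 = t.2.1
        rw [h3, inv_smul_smul] }

variable {F P G₀ : Type} [Field F] [Group G₀] [Finite G₀] [Group P] [Finite P] {p : ℕ}

/-- blocks which agree on the invariant class functions are conjugate -/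
theorem conj_of_agree [Infinite F] (α : P →* MulAut G₀) {L B : (G₀ → F) → F} (hL : IsBlock L)
    (hB : IsBlock B) {cl cb : Col F G₀} (hcl : ∀ f, cl f = L f.1) (hcb : ∀ f, cb f = B f.1)
    (h : ∀ z ∈ VI F α, L z = B z) : ∃ γ : P, cb = α γ • cl := by
  have : Fintype G₀ := Fintype.ofFinite G₀
  have hPf : Fintype P := Fintype.ofFinite P
  by_contra hno
  push Not at hno
  let V : Submodule F (G₀ → F) := Pool.Agent.Y171.NV.CFm G₀ F
  let μ : P → (V →ₗ[F] F) := fun γ =>
    { toFun := fun z => L (fun x => z.1 (α γ x))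
      map_add' := fun a b => hL.add _ _ (cf_aut (α γ) a.2) (cf_aut (α γ) b.2)
      map_smul' := fun c a => hL.smul c _ (cf_aut (α γ) a.2) }
  let β : V →ₗ[F] F :=
    { toFun := fun z => B z.1
      map_add' := fun a b => hB.add _ _ a.2 b.2
      map_smul' := fun c a => hB.smul c _ a.2 }
  obtain ⟨z, hz⟩ := exists_sep μ β
  have hne : ∀ γ : P, L (fun x => z.1 (α γ x)) ≠ B z.1 := by
    intro γ h1
    have h2 := hz γ h1
    refine hno γ ?_
    funext f
    rw [col_smul, hcl, hcb]
    exact (LinearMap.congr_fun h2 (⟨f.1, f.2⟩ : V)).symm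
  set k := B z.1 with hk
  have hone : IsClassFun (Pi.single 1 1 : G₀ → F) := one_cf
  have hzc : IsClassFun z.1 := z.2
  have hf' : IsClassFun (z.1 + (-k) • (Pi.single 1 1 : G₀ → F)) := by
    intro g x
    have h1 := hone g x
    rw [Pi.add_apply, Pi.add_apply, hzc g x, Pi.smul_apply, Pi.smul_apply, h1]
  have hsm : IsClassFun ((-k) • (Pi.single 1 1 : G₀ → F)) := by
    intro g x
    have h1 := hone g x
    rw [Pi.smul_apply, Pi.smul_apply, h1]
  let f' : CR G₀ F := ⟨z.1 + (-k) • (Pi.single 1 1 : G₀ → F), hf'⟩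
  let Nf : CR G₀ F := ∏ u : P, ph (gp_act α u) f'
  have hinv : ∀ v, ph (gp_act α v) Nf = Nf := by
    intro v
    rw [map_prod]
    refine Fintype.prod_equiv (Equiv.mulRight v) _ _ fun u => ?_
    apply Subtype.ext
    funext x
    change f'.1 (actP α u (actP α v x)) = f'.1 (actP α (u * v) x)
    rw [map_mul]
    rfl
  have h1 : L Nf.1 = B Nf.1 := h Nf.1 ⟨Nf.2, fun γ x =>
    congrFun (congrArg Subtype.val (hinv γ)) x⟩
  have h2 : L Nf.1 = ∏ u : P, L (fun x => f'.1 (actP α u x)) := by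
    change bh hL Nf = _
    rw [map_prod]
    rfl
  have h3 : B Nf.1 = ∏ u : P, bh hB (ph (gp_act α u) f') := by
    change bh hB Nf = _
    rw [map_prod]
  have h4 : ∏ u : P, bh hB (ph (gp_act α u) f') = 0 := by
    refine Finset.prod_eq_zero (Finset.mem_univ (1 : P)) ?_
    have h5 : ph (gp_act α 1) f' = f' := by
      apply Subtype.ext
      funext x
      change f'.1 (actP α 1 x) = f'.1 x
      rw [map_one]
      rfl
    rw [h5]
    change B (z.1 + (-k) • (Pi.single 1 1 : G₀ → F)) = 0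
    rw [hB.add _ _ hzc hsm, hB.smul _ _ hone, hB.one, ← hk]
    ring
  rw [h2, h3, h4, Finset.prod_eq_zero_iff] at h1
  obtain ⟨u, -, hu⟩ := h1
  apply hne u
  have hsingle : (fun x => (Pi.single 1 1 : G₀ → F) (α u x)) = Pi.single 1 1 := by
    have h6 := congrArg Subtype.val (map_one (ph (F := F) (gp_act α u)))
    exact h6
  have h7 : (fun x => f'.1 (actP α u x)) =
      (fun x => z.1 (α u x)) + (-k) • (Pi.single 1 1 : G₀ → F) := by
    rw [← hsingle]
    rfl
  rw [h7, hL.add _ _ (cf_aut (α u) hzc) hsm, hL.smul _ _ hone, hL.one] at hu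
  linear_combination hu

/-- from labels at invariant class functions to colours -/
theorem fib_orb [Fact p.Prime] [IsAlgClosed F] [CharP F p] (red : integralClosure ℤ ℂ →+* F)
    (α : P →* MulAut G₀)
    (hIW : ∀ (f : G₀ → F) (hf : IsClassFun f), (∀ (γ : P) (x : G₀), f (α γ x) = f x) → ∀ c : F,
      Nat.card {φ : IB F G₀ // colI φ ⟨f, hf⟩ = c} =
        Nat.card {κ : WC p G₀ // colW red κ ⟨f, hf⟩ = c}) (col : Col F G₀) :
    Nat.card {φ : IB F G₀ // colI φ = col} = Nat.card {κ : WC p G₀ // colW red κ = col} := by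
  have hInf : Infinite F := inferInstance
  have hfW : Finite (WC p G₀) := Quotient.finite _
  let I : Type := IB F G₀ ⊕ WC p G₀
  let cI : I → Col F G₀ := Sum.elim (fun φ => colI φ) (fun κ => colW red κ)
  have hblk : ∀ i : I, ∃ B : (G₀ → F) → F, IsBlock B ∧ ∀ f, cI i f = B f.1 := by
    rintro (φ | κ)
    · exact colI_block φ
    · exact colW_block red κ
  by_cases hc : ∃ i : I, cI i = col
  · obtain ⟨i₀, rfl⟩ := hc
    choose B hB hBc using hblk
    obtain ⟨z, hz⟩ := exists_sep (fun i : I => blI α (hB i)) (blI α (hB i₀))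
    have key : ∀ i : I, cI i ⟨z.1, z.2.1⟩ = cI i₀ ⟨z.1, z.2.1⟩ ↔
        ∃ γ : P, cI i = α γ • cI i₀ := by
      intro i
      constructor
      · intro h
        rw [hBc, hBc] at h
        have h1 := hz i h
        exact conj_of_agree α (hB i₀) (hB i) (hBc i₀) (hBc i)
          fun z' hz' => (LinearMap.congr_fun h1 ⟨z', hz'⟩).symm
      · rintro ⟨γ, h⟩
        rw [h, col_smul]
        congr 1
        exact Subtype.ext (funext fun x => z.2.2 γ x)
    have h1 := hIW z.1 z.2.1 z.2.2 (cI i₀ ⟨z.1, z.2.1⟩)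
    let iA : MulAction P (IB F G₀) := MulAction.compHom _ α
    let iB : MulAction P (WC p G₀) := MulAction.compHom _ α
    let iC : MulAction P (Col F G₀) := MulAction.compHom _ α
    have h4 : Nat.card {φ : IB F G₀ // colI φ ⟨z.1, z.2.1⟩ = cI i₀ ⟨z.1, z.2.1⟩} =
        Nat.card {φ : IB F G₀ // ∃ γ : P, colI φ = γ • cI i₀} :=
      Nat.card_congr (Equiv.subtypeEquivRight fun φ => key (Sum.inl φ))
    have h5 : Nat.card {κ : WC p G₀ // colW red κ ⟨z.1, z.2.1⟩ = cI i₀ ⟨z.1, z.2.1⟩} =
        Nat.card {κ : WC p G₀ // ∃ γ : P, colW red κ = γ • cI i₀} :=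
      Nat.card_congr (Equiv.subtypeEquivRight fun κ => key (Sum.inr κ))
    have h6 : Nat.card {φ : IB F G₀ // ∃ γ : P, colI φ = γ • cI i₀} =
        Nat.card (MulAction.orbit P (cI i₀)) * Nat.card {φ : IB F G₀ // colI φ = cI i₀} :=
      card_orb colI (fun γ φ => colI_smul (α γ) φ) (cI i₀)
    have h7 : Nat.card {κ : WC p G₀ // ∃ γ : P, colW red κ = γ • cI i₀} =
        Nat.card (MulAction.orbit P (cI i₀)) * Nat.card {κ : WC p G₀ // colW red κ = cI i₀} :=
      card_orb (colW red) (fun γ κ => colW_smul red (α γ) κ) (cI i₀)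
    rw [h4, h5, h6, h7] at h1
    have hofin : Finite (MulAction.orbit P (cI i₀)) := Finite.Set.finite_range _
    have hone : Nonempty (MulAction.orbit P (cI i₀)) := ⟨⟨_, MulAction.mem_orbit_self _⟩⟩
    exact Nat.eq_of_mul_eq_mul_left Nat.card_pos h1
  · have e1 : Nat.card {φ : IB F G₀ // colI φ = col} = 0 := by
      rw [Nat.card_eq_zero]
      exact Or.inl ⟨fun φ => hc ⟨Sum.inl φ.1, φ.2⟩⟩
    have e2 : Nat.card {κ : WC p G₀ // colW red κ = col} = 0 := by
      rw [Nat.card_eq_zero]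
      exact Or.inl ⟨fun κ => hc ⟨Sum.inr κ.1, κ.2⟩⟩
    rw [e1, e2]

end orb

theorem pbi : S_PBI := by
  intro p _ F _ _ _ red Γ _ _ G hG hc hN
  have hposΓ : (Nat.card Γ : ℤ) ≠ 0 := by exact_mod_cast Nat.card_pos.ne'
  constructor
  · intro h b hb
    rw [irr_col b, wt_col red b]
    have hbase := base' p F red Γ ((bawc_iff p red).1 h)
    have h1 := fib_orb (p := p) red (MulAut.conjNormal (H := G)) (fun f hf hfi c => by
      obtain ⟨z, hz, rfl⟩ := ext_zero G hfi
      have h2 := dif_index red G hc hN hz c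
      have h3 := hbase z (cfz hz) c
      rw [← top_I z (cfz hz) c, ← top_W (p := p) red z (cfz hz) c] at h3
      have h4 := mul_left_cancel₀ hposΓ h3
      rw [h4, sub_self, mul_zero] at h2
      exact_mod_cast (sub_eq_zero.1 h2.symm)) (fun f => b f.1)
    have e1 : ∀ φ : IB F G, (colI φ = fun f => b f.1) ↔ ∀ f, colI φ f = b f.1 :=
      fun φ => funext_iff
    have e2 : ∀ κ : WC p G, (colW red κ = fun f => b f.1) ↔ ∀ f, colW red κ f = b f.1 :=
      fun κ => funext_iff
    rw [Nat.card_congr (Equiv.subtypeEquivRight e1),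
      Nat.card_congr (Equiv.subtypeEquivRight e2)] at h1
    exact h1
  · intro h
    rw [bawc_iff]
    have hbase := base' p F red G ((bawc_iff p red).1 h)
    refine finL' p F red Γ G hc fun z hz c => ?_
    have h2 := dif_index red G hc hN hz c
    have h3 := hbase (fun x : G => z x) (res_classFun hz G) c
    have hposG : (Nat.card G : ℤ) ≠ 0 := by exact_mod_cast Nat.card_pos.ne'
    have hp0 : (p : ℤ) ≠ 0 := by exact_mod_cast (Fact.out : p.Prime).ne_zero
    rw [← top_I (fun x : G => z x) (res_classFun hz G) c,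
      ← top_W (p := p) red (fun x : G => z x) (res_classFun hz G) c] at h3
    have h4 := mul_left_cancel₀ hposG h3
    rw [h4, sub_self] at h2
    have h5 := (mul_eq_zero.1 h2).resolve_left hp0
    rw [← top_I z (cfz hz) c, ← top_W (p := p) red z (cfz hz) c, sub_eq_zero.1 h5]

end Pool.Agent.Q18.NB
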