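import Pool.Agent.Q18.NB.Quo
import Pool.Agent.Q18.LF.Asm2

/-!
# Index `p`: PX, SPL, RES, DZX
-/

set_option autoImplicit false

open scoped Classical BigOperators

noncomputable section

set_option linter.unusedSectionVars false

namespace Pool.Agent.Q18.NB

open Pool.Agent.Q18.LF
open Pool.Agent.Y63.NV
open Pool.Agent.Y63.KR

section

variable {F : Type} [Field F] {Γ : Type} [Group Γ] [Finite Γ]

theorem lsum_top (H : Subgroup Γ) (z : Γ → F) (c : F) :
    Lsum ⊤ H (cut z H) c = Lsum (⊤ : Subgroup H) ⊤ (fun x : H => z x) c := by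
  rw [parts.trl F Γ ⊤ H (cut z H) c (top_sup_eq H), Subgroup.top_subgroupOf]
  have e1 : (fun x : H => cut z H x) = fun x : H => z x := by
    funext x
    unfold cut
    rw [if_pos x.2]
  rw [e1]

theorem relIndex_eq {p : ℕ} {G : Subgroup Γ} [hG : G.Normal] (hc : Nat.card (Γ ⧸ G) = p)
    {H : Subgroup Γ} (h : G ⊔ H = ⊤) : Nat.card (H ⧸ G.subgroupOf H) = p := by
  have h4 : G.relIndex (G ⊔ H) = p := by
    rw [h, Subgroup.relIndex_top_right]
    exact hc
  have h5 : G.relIndex H = G.relIndex (G ⊔ H) := (Subgroup.relIndex_sup_left H G).symm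
  rw [← h4, ← h5]
  rfl

/-- the isomorphism between the two forms of the intersection -/
def eInf (G H : Subgroup Γ) : ↥(G.subgroupOf H) ≃* ↥(G ⊓ H) where
  toFun x := ⟨x.1.1, ⟨Subgroup.mem_subgroupOf.1 x.2, x.1.2⟩⟩
  invFun x := ⟨⟨x.1, x.2.2⟩, Subgroup.mem_subgroupOf.2 x.2.1⟩
  left_inv x := rfl
  right_inv x := rfl
  map_mul' x y := rfl

end

theorem px : S_PX := by
  intro p _ F _ _ _ Γ _ _ G hG z c H hc hz
  rcases sup_or_le hc H with h | h
  · have hz' : InZ (G.subgroupOf H) (fun x : H => z x) :=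
      ⟨fun g x => hz.conj g x, fun x hx => hz.supp _ fun h => hx (Subgroup.mem_subgroupOf.mpr h)⟩
    have h1 := pell' p F H (G.subgroupOf H) (fun x : H => z x) c (relIndex_eq hc h) hz'
    have h2 := lsum_iso (eInf G H) (fun x : G.subgroupOf H => z x) (fun x : ↥(G ⊓ H) => z x)
      (fun x => rfl) c
    rw [← lsum_top H z c, h2, ← lsum_top (G ⊓ H) z c, ← parts.trl F Γ G H z c h] at h1
    exact h1
  · have h1 : G ⊔ H ≠ ⊤ := by
      rw [sup_eq_left.2 h]
      exact ne_top_of_card hc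
    rw [lsum_zero h1, mul_zero, add_zero, inf_eq_right.2 h]

theorem spl : S_SPL := by
  intro p _ F _ _ Γ _ _ G hG z c U H hc hGU hGU' hUH hHU
  have hGH : G ⊔ H = ⊤ := by
    rw [eq_top_iff, ← hGU]
    exact sup_le_sup_left hUH G
  have hcent : ∀ u ∈ U, ∀ x ∈ G ⊓ H, u * x * u⁻¹ = x := by
    intro u hu x hx
    obtain ⟨hxG, hxH⟩ := Subgroup.mem_inf.1 hx
    have h1 : u * x * u⁻¹ * x⁻¹ ∈ U := by
      have h2 := (Subgroup.mem_normalizer_iff.1 (hHU hxH) u⁻¹).1 (U.inv_mem hu)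
      have h3 := U.mul_mem hu h2
      have e : u * (x * u⁻¹ * x⁻¹) = u * x * u⁻¹ * x⁻¹ := by group
      rwa [e] at h3
    have h4 : u * x * u⁻¹ * x⁻¹ ∈ G := G.mul_mem (hG.conj_mem x hxG u) (G.inv_mem hxG)
    have h5 : u * x * u⁻¹ * x⁻¹ ∈ G ⊓ U := Subgroup.mem_inf.2 ⟨h4, h1⟩
    rw [hGU', Subgroup.mem_bot] at h5
    exact mul_inv_eq_one.1 h5
  have hdec : ∀ h ∈ H, ∃ g ∈ G ⊓ H, ∃ u ∈ U, h = g * u := by
    intro h hh
    have h3 : h ∈ (G ⊔ U : Subgroup Γ) := by
      rw [hGU]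
      trivial
    rw [← SetLike.mem_coe, Subgroup.normal_mul, Set.mem_mul] at h3
    obtain ⟨g, hg, u, hu, rfl⟩ := h3
    refine ⟨g, Subgroup.mem_inf.2 ⟨hg, ?_⟩, u, hu, rfl⟩
    have e : g = g * u * u⁻¹ := by group
    rw [e]
    exact H.mul_mem hh (H.inv_mem (hUH hu))
  have hcard : Nat.card H = p * Nat.card ↥(G ⊓ H) := by
    have h1 := Subgroup.card_eq_card_quotient_mul_card_subgroup (G.subgroupOf H)
    rw [relIndex_eq hc hGH, Nat.card_congr (eInf G H).toEquiv] at h1
    exact h1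
  unfold Lsum
  rw [if_pos hGH, if_pos (top_sup_eq _), hcard]
  let e : ↥(G ⊓ H) ≃* ↥(⊤ ⊓ (G ⊓ H)) :=
    { toFun := fun x => ⟨x.1, ⟨trivial, x.2⟩⟩
      invFun := fun y => ⟨y.1, y.2.2⟩
      left_inv := fun _ => rfl
      right_inv := fun _ => rfl
      map_mul' := fun _ _ => rfl }
  have h1 : Lnum (G ⊓ H) H z c = Lnum (⊤ ⊓ (G ⊓ H)) (G ⊓ H) (cut z (G ⊓ H)) c := by
    refine Pool.Agent.Y210.NV2.lnum_congr _ _ _ _ _ _ c e (fun x => if_pos x.2) fun φ => ⟨?_, ?_⟩
    · intro h h' hh x y hxy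
      obtain ⟨g, hg, u, hu, rfl⟩ := hdec h' hh
      refine h g hg (e x) (e y) ?_
      change (y : Γ) = g * x * g⁻¹
      rw [hxy]
      have h2 := hcent u hu x x.2
      calc g * u * (x : Γ) * (g * u)⁻¹ = g * (u * x * u⁻¹) * g⁻¹ := by group
        _ = _ := by rw [h2]
    · intro h g hg x y hxy
      obtain ⟨x, rfl⟩ := e.surjective x
      obtain ⟨y, rfl⟩ := e.surjective y
      exact h g (Subgroup.mem_inf.1 hg).2 x y hxy
  rw [h1]
  push_cast
  ring

theorem res : S_RES := by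
  intro p _ F _ _ _ red Γ _ _ G z c hz
  have : Fintype {σ : Set (Subgroup G) // IsPChain p σ} := Fintype.ofFinite _
  have h0 : KA p red (fun x : G => z x) c = ∑ᶠ σ : {σ : Set (Subgroup G) // IsPChain p σ},
      (-1) ^ σ.1.ncard * Lsum ⊤ (chainStabilizer σ.1)
        (cut (fun x : G => z x) (chainStabilizer σ.1)) c := by
    unfold KA
    rw [finsum_eq_sum_of_fintype, finsum_eq_sum_of_fintype]
    exact kl_alt (p := p) (Γ := G) (z := fun x : G => z x) Pool.Agent.Q18.K.s_kdimh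
      Pool.Agent.Q18.K.s_kfilt red (fun g x => hz.conj g x) c
  rw [h0]
  symm
  have hinj : Function.Injective (fun P : Subgroup G => P.map G.subtype) :=
    Subgroup.map_injective G.subtype_injective
  have hmono : ∀ P P' : Subgroup G, P.map G.subtype ≤ P'.map G.subtype ↔ P ≤ P' := fun P P' =>
    Subgroup.map_le_map_iff_of_injective G.subtype_injective
  have hbot : ∀ P : Subgroup G, P.map G.subtype = ⊥ ↔ P = ⊥ := fun P =>
    Subgroup.map_eq_bot_iff_of_injective P G.subtype_injective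
  have hpg : ∀ P : Subgroup G, IsPGroup p (P.map G.subtype) ↔ IsPGroup p P := fun P =>
    ⟨fun h => h.of_equiv (P.equivMapOfInjective G.subtype G.subtype_injective).symm,
      fun h => h.map _⟩
  have hsub : ∀ P : Subgroup Γ, P ≤ G → (P.subgroupOf G).map G.subtype = P := fun P hP => by
    rw [Subgroup.subgroupOf_map_subtype, inf_eq_left.2 hP]
  refine finsum_eq_of_bijective (e := fun σ : {σ : Set (Subgroup G) // IsPChain p σ} =>
    (⟨(fun P : Subgroup G => P.map G.subtype) '' σ.1, ⟨⟨?_, ?_, ?_⟩, ?_⟩⟩ :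
      {σ : Set (Subgroup Γ) // IsPChain p σ ∧ ∀ P ∈ σ, P ≤ G})) ?_ ?_
  · rintro _ ⟨P, hP, rfl⟩ _ ⟨P', hP', rfl⟩ _
    rcases σ.2.chain.total hP hP' with h1 | h1
    · exact Or.inl ((hmono _ _).2 h1)
    · exact Or.inr ((hmono _ _).2 h1)
  · rintro _ ⟨P, hP, rfl⟩
    exact (hpg P).2 (σ.2.isPGroup P hP)
  · rintro _ ⟨P, hP, rfl⟩
    exact fun h => σ.2.ne_bot P hP ((hbot P).1 h)
  · rintro _ ⟨P, hP, rfl⟩
    exact Subgroup.map_subtype_le P
  · constructor
    · intro σ σ' h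
      apply Subtype.ext
      exact hinj.image_injective (congrArg Subtype.val h)
    · intro τ
      refine ⟨⟨(fun P : Subgroup Γ => P.subgroupOf G) '' τ.1, ⟨?_, ?_, ?_⟩⟩, ?_⟩
      · rintro _ ⟨P, hP, rfl⟩ _ ⟨P', hP', rfl⟩ _
        rcases τ.2.1.chain.total hP hP' with h1 | h1
        · exact Or.inl ((hmono _ _).1 (by
            rw [hsub P (τ.2.2 P hP), hsub P' (τ.2.2 P' hP')]; exact h1))
        · exact Or.inr ((hmono _ _).1 (by
            rw [hsub P (τ.2.2 P hP), hsub P' (τ.2.2 P' hP')]; exact h1))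
      · rintro _ ⟨P, hP, rfl⟩
        rw [← hpg, hsub P (τ.2.2 P hP)]
        exact τ.2.1.isPGroup P hP
      · rintro _ ⟨P, hP, rfl⟩ h
        apply τ.2.1.ne_bot P hP
        rw [← hsub P (τ.2.2 P hP)]
        exact (hbot _).2 h
      · apply Subtype.ext
        change (fun P : Subgroup G => P.map G.subtype) ''
          ((fun P : Subgroup Γ => P.subgroupOf G) '' τ.1) = τ.1
        ext P
        constructor
        · rintro ⟨_, ⟨P', hP', rfl⟩, rfl⟩
          change (P'.subgroupOf G).map G.subtype ∈ τ.1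
          rw [hsub P' (τ.2.2 P' hP')]
          exact hP'
        · intro hP
          exact ⟨_, ⟨P, hP, rfl⟩, hsub P (τ.2.2 P hP)⟩
  · intro σ
    change (-1) ^ σ.1.ncard * Lsum ⊤ (chainStabilizer σ.1)
        (cut (fun x : G => z x) (chainStabilizer σ.1)) c =
      (-1) ^ ((fun P : Subgroup G => P.map G.subtype) '' σ.1).ncard *
        Lsum ⊤ (G ⊓ chainStabilizer ((fun P : Subgroup G => P.map G.subtype) '' σ.1))
          (cut z (G ⊓ chainStabilizer ((fun P : Subgroup G => P.map G.subtype) '' σ.1))) c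
    rw [Set.ncard_image_of_injective _ hinj, lsum_top, lsum_top]
    congr 1
    have hconj : ∀ (x : G) (P : Subgroup G),
        conjSub (x : Γ) (P.map G.subtype) = (conjSub x P).map G.subtype := by
      intro x P
      unfold conjSub
      rw [Subgroup.map_map, Subgroup.map_map]
      rfl
    have hmem : ∀ x : G, x ∈ chainStabilizer σ.1 ↔
        (x : Γ) ∈ G ⊓ chainStabilizer ((fun P : Subgroup G => P.map G.subtype) '' σ.1) := by
      intro x
      rw [Subgroup.mem_inf, mem_chainStabilizer, mem_chainStabilizer]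
      constructor
      · intro h
        refine ⟨x.2, ?_⟩
        rintro _ ⟨P, hP, rfl⟩
        change conjSub (x : Γ) (P.map G.subtype) = P.map G.subtype
        rw [hconj, h P hP]
      · rintro ⟨_, h⟩ P hP
        have h1 := h _ ⟨P, hP, rfl⟩
        change conjSub (x : Γ) (P.map G.subtype) = P.map G.subtype at h1
        rw [hconj] at h1
        exact hinj h1
    let e : ↥(chainStabilizer σ.1) ≃*
        ↥(G ⊓ chainStabilizer ((fun P : Subgroup G => P.map G.subtype) '' σ.1)) :=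
      { toFun := fun x => ⟨x.1.1, (hmem x.1).1 x.2⟩
        invFun := fun x => ⟨⟨x.1, x.2.1⟩, (hmem ⟨x.1, x.2.1⟩).2 x.2⟩
        left_inv := fun x => rfl
        right_inv := fun x => rfl
        map_mul' := fun x y => rfl }
    exact lsum_iso e (fun x : chainStabilizer σ.1 => z x)
      (fun x : ↥(G ⊓ chainStabilizer ((fun P : Subgroup G => P.map G.subtype) '' σ.1)) => z x)
      (fun x => rfl) c

theorem dzx : S_DZX := by
  intro p _ F _ _ _ red Γ _ _ G hG z c hc hz
  have hp0 : (p : ℤ) ≠ 0 := by exact_mod_cast (Fact.out : p.Prime).ne_zero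
  have : Fintype (Subgroup Γ) := Fintype.ofFinite _
  have h1 : (p : ℤ) * Nw p red (⊥ : Subgroup Γ) z c + numInvDzL p red G z c =
      Nw p red (⊥ : Subgroup G) (fun x => z x) c := by
    exact_mod_cast Pool.Agent.Y809.NV.clifL p F red Γ G z c hc hz
  have h2 := dgnL' p F red Γ G z c (pgroup_of_card hc) hz
  have h3 : (Nat.card Γ : ℤ) = p * Nat.card G := by
    have h := Subgroup.card_eq_card_quotient_mul_card_subgroup G
    rw [hc] at h
    exact_mod_cast h
  have h4 : (Nat.card G : ℤ) * numInvDzL p red G z c =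
      ∑ᶠ U : Subgroup Γ, if IsPGroup p U ∧ G ⊔ U = ⊤ ∧ G ⊓ U = ⊥ then
        (Nat.card (NQ U) : ℤ) * Nw p red (⊥ : Subgroup (NQ U)) (pz U z) c else 0 := by
    refine mul_left_cancel₀ hp0 ?_
    rw [← mul_assoc, ← h3, ← Nat.cast_mul, h2, finsum_eq_sum_of_fintype,
      finsum_eq_sum_of_fintype, Nat.cast_sum, Finset.mul_sum]
    refine Finset.sum_congr rfl fun U _ => ?_
    by_cases h : IsPGroup p U ∧ G ⊔ U = ⊤ ∧ G ⊓ U = ⊥
    · rw [if_pos h, if_pos h, Nat.cast_mul, card_nq, card_compl hc h.2.1 h.2.2,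
        nwq p F red Γ z c U h.1 (fun g x => hz.conj g x), mul_assoc]
    · rw [if_neg h, if_neg h, Nat.cast_zero, mul_zero]
  rw [← h4, h3, ← h1]
  ring

end Pool.Agent.Q18.NB
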