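import Pool.Agent.Q18.NB.Cor

/-!
# Characters and the quotient by `Q`: QUO, NWQ, CLS
-/

set_option autoImplicit false

open scoped Classical BigOperators

noncomputable section

set_option linter.unusedSectionVars false

namespace Pool.Agent.Q18.NB

open Pool.Agent.Q18.LF
open Pool.Agent.Y63.NV
open Pool.Agent.Y63.KR

section gen

variable {F : Type} [Field F] {J : Type} [Group J]

theorem push_mk [Finite J] (M : Subgroup J) (z : J → F) (y : J) :
    push M z (y : J ⧸ M) = ∑ᶠ q : M, z (y * q) := by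
  unfold push
  rw [← finsum_comp_equiv (Equiv.mulLeft y)]
  have h1 : ∑ᶠ q : M, z (y * q) = ∑ᶠ (h : J) (_ : h ∈ M), z (y * h) :=
    finsum_subtype_eq_finsum_cond (fun h => h ∈ M) (f := fun h => z (y * h))
  rw [h1]
  refine finsum_congr fun h => ?_
  change (if ((y * h : J) : J ⧸ M) = y then z (y * h) else 0) = _
  rw [finsum_eq_if]
  have h2 : ((y * h : J) : J ⧸ M) = y ↔ h ∈ M := by
    rw [QuotientGroup.eq]
    constructor
    · intro h3
      have e : h = (((y * h)⁻¹ * y))⁻¹ := by group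
      rw [e]
      exact M.inv_mem h3
    · intro h3
      have e : (y * h)⁻¹ * y = h⁻¹ := by group
      rw [e]
      exact M.inv_mem h3
  by_cases h3 : h ∈ M
  · rw [if_pos h3, if_pos (h2.2 h3)]
  · rw [if_neg h3, if_neg (fun h4 => h3 (h2.1 h4))]

/-- `Lsum` for the whole group is invariant under isomorphisms -/
theorem lsum_iso {J' : Type} [Group J'] (e : J ≃* J') (f : J → F) (f' : J' → F)
    (h : ∀ x, f' (e x) = f x) (c : F) :
    Lsum (⊤ : Subgroup J) ⊤ f c = Lsum (⊤ : Subgroup J') ⊤ f' c := by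
  unfold Lsum
  rw [if_pos (top_sup_eq _), if_pos (top_sup_eq _), Subgroup.card_top, Subgroup.card_top,
    Nat.card_congr e.toEquiv]
  congr 2
  let e' : ↥((⊤ : Subgroup J) ⊓ ⊤) ≃* ↥((⊤ : Subgroup J') ⊓ ⊤) :=
    { toFun := fun x => ⟨e x.1, ⟨trivial, trivial⟩⟩
      invFun := fun x => ⟨e.symm x.1, ⟨trivial, trivial⟩⟩
      left_inv := fun x => Subtype.ext (e.symm_apply_apply _)
      right_inv := fun x => Subtype.ext (e.apply_symm_apply _)
      map_mul' := fun x y => Subtype.ext (map_mul e _ _) }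
  refine Pool.Agent.Y210.NV2.lnum_congr _ _ _ _ _ _ c e' (fun x => h x.1) fun φ => ⟨?_, ?_⟩
  · intro h1 g _ x y hxy
    refine h1 (e g) trivial (e' x) (e' y) ?_
    change e (y : J) = e g * e x * (e g)⁻¹
    rw [hxy, map_mul, map_mul, map_inv]
  · intro h1 g _ x y hxy
    obtain ⟨x, rfl⟩ := e'.surjective x
    obtain ⟨y, rfl⟩ := e'.surjective y
    refine h1 (e.symm g) trivial x y ?_
    apply e.injective
    rw [map_mul, map_mul, map_inv, e.apply_symm_apply]
    exact hxy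

end gen

theorem quo : S_QUO := by
  intro p _ F _ _ _ Γ _ _ G hG z hz c Q hQ hGQ K
  have hQY : Q ≤ up Q K := le_up K
  have hGY : G ⊔ up Q K = ⊤ := by
    rw [eq_top_iff, ← hGQ]
    exact sup_le_sup_left hQY G
  have hMn : (Q.subgroupOf (up Q K)).Normal := by
    rw [← prjK_ker]
    infer_instance
  have hMp : IsPGroup p (Q.subgroupOf (up Q K)) := hQ.comap_subtype
  have hz' : InZ (G.subgroupOf (up Q K)) (fun x : up Q K => z x) :=
    ⟨fun g x => hz.conj g x, fun x hx => hz.supp _ fun h => hx (Subgroup.mem_subgroupOf.mpr h)⟩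
  obtain ⟨_, h1⟩ := parts.lq p F (up Q K) (G.subgroupOf (up Q K)) (Q.subgroupOf (up Q K))
    (fun x => z x) hMp hz' c
  have h2 : (G.subgroupOf (up Q K)).map (QuotientGroup.mk' (Q.subgroupOf (up Q K))) = ⊤ := by
    rw [eq_top_iff]
    intro y _
    obtain ⟨x, rfl⟩ := QuotientGroup.mk_surjective y
    have h3 : (x : Γ) ∈ (G ⊔ Q : Subgroup Γ) := by
      rw [hGQ]
      trivial
    rw [← SetLike.mem_coe, Subgroup.normal_mul, Set.mem_mul] at h3
    obtain ⟨g, hg, q, hq, hgq⟩ := h3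
    have hgY : g ∈ up Q K := by
      have e : g = x * q⁻¹ := by rw [← hgq]; group
      rw [e]
      exact (up Q K).mul_mem x.2 ((up Q K).inv_mem (hQY hq))
    refine ⟨⟨g, hgY⟩, hg, ?_⟩
    rw [QuotientGroup.mk'_apply, QuotientGroup.eq, Subgroup.mem_subgroupOf]
    change g⁻¹ * (x : Γ) ∈ Q
    rw [← hgq]
    have e : g⁻¹ * (g * q) = q := by group
    rw [e]
    exact hq
  have h4 : Nat.card (Q.subgroupOf (up Q K)) = Nat.card Q :=
    Nat.card_congr (Subgroup.subgroupOfEquivOfLe hQY).toEquiv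
  rw [parts.trl F Γ G (up Q K) z c hGY, h1, h2, h4]
  congr 1
  rw [parts.trl F (NQ Q) ⊤ K (cut (pz Q z) K) c (top_sup_eq K), Subgroup.top_subgroupOf]
  let e : (up Q K) ⧸ (Q.subgroupOf (up Q K)) ≃* K :=
    (QuotientGroup.quotientMulEquivOfEq (prjK_ker K).symm).trans
      (QuotientGroup.quotientKerEquivOfSurjective (prjK Q K) (prjK_surj K))
  refine lsum_iso e _ _ ?_ c
  intro y
  obtain ⟨x, rfl⟩ := QuotientGroup.mk_surjective y
  have h5 : e (x : (up Q K) ⧸ (Q.subgroupOf (up Q K))) = prjK Q K x := rfl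
  rw [h5]
  have h6 : cut (pz Q z) K (prjK Q K x : NQ Q) = pz Q z (prjK Q K x : NQ Q) :=
    if_pos (prjK Q K x).2
  rw [h6]
  have h7 : pz Q z (prjK Q K x : NQ Q) = ∑ᶠ q : Q.subgroupOf (Subgroup.normalizer (Q : Set Γ)),
      z ((x : Γ) * (q : Subgroup.normalizer (Q : Set Γ))) :=
    push_mk (Q.subgroupOf (Subgroup.normalizer (Q : Set Γ)))
      (fun x : Subgroup.normalizer (Q : Set Γ) => z x) ⟨x, up_le K x.2⟩
  have h8 := push_mk (Q.subgroupOf (up Q K)) (fun x : up Q K => z x) x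
  rw [h7, h8]
  let a : Q.subgroupOf (up Q K) ≃ Q := (Subgroup.subgroupOfEquivOfLe hQY).toEquiv
  let b : Q.subgroupOf (Subgroup.normalizer (Q : Set Γ)) ≃ Q :=
    (Subgroup.subgroupOfEquivOfLe Subgroup.le_normalizer).toEquiv
  have h9 : ∑ᶠ q : Q.subgroupOf (up Q K), z ((x * q : up Q K) : Γ) =
      ∑ᶠ q : Q, z ((x : Γ) * q) := by
    rw [← finsum_comp_equiv a]
    rfl
  have h10 : ∑ᶠ q : Q.subgroupOf (Subgroup.normalizer (Q : Set Γ)),
      z ((x : Γ) * (q : Subgroup.normalizer (Q : Set Γ))) = ∑ᶠ q : Q, z ((x : Γ) * q) := by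
    rw [← finsum_comp_equiv b]
    rfl
  rw [h10]
  exact h9.symm

theorem nwq : S_NWQ := by
  intro p _ F _ _ red Γ _ _ z c Q hQ hz
  have h1 := Pool.Agent.Y210.NV3.nw_comap (prj Q) (prj_surj Q) Pool.Agent.Y930.NV.inf p red ⊥
    (fun x : Subgroup.normalizer (Q : Set Γ) => z x) (fun g x => hz g x) c
  have h2 : (⊥ : Subgroup (NQ Q)).comap (prj Q) =
      Q.subgroupOf (Subgroup.normalizer (Q : Set Γ)) := by
    ext x
    rw [Subgroup.mem_comap, Subgroup.mem_bot, prj_eq_one, Subgroup.mem_subgroupOf]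
  rw [h2] at h1
  rw [h1]
  congr 1
  funext y
  unfold pz push
  refine finsum_congr fun x => ?_
  by_cases h : prj Q x = y
  · rw [if_pos h]
    exact (if_pos h).symm
  · rw [if_neg h]
    exact (if_neg h).symm

theorem cls : S_CLS := by
  intro F _ Γ _ _ z Q hz y x
  obtain ⟨y, rfl⟩ := prj_surj Q y
  obtain ⟨x, rfl⟩ := prj_surj Q x
  unfold pz push
  rw [← map_inv, ← map_mul, ← map_mul]
  rw [← finsum_comp_equiv (MulAut.conj y).toEquiv]
  refine finsum_congr fun g => ?_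
  have h1 : (((MulAut.conj y).toEquiv g : Subgroup.normalizer (Q : Set Γ)) : NQ Q) =
      prj Q (y * x * y⁻¹) ↔ (g : NQ Q) = prj Q x := by
    change prj Q (y * g * y⁻¹) = prj Q (y * x * y⁻¹) ↔ prj Q g = prj Q x
    rw [map_mul, map_mul, map_mul, map_mul]
    constructor
    · intro h
      exact mul_left_cancel (mul_right_cancel h)
    · intro h
      rw [h]
  have h2 : z (((MulAut.conj y).toEquiv g : Subgroup.normalizer (Q : Set Γ)) : Γ) = z g := by
    change z ((y : Γ) * g * (y : Γ)⁻¹) = z g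
    exact hz _ _
  by_cases h : (g : NQ Q) = prj Q x
  · rw [if_pos h, if_pos (h1.2 h)]
    exact h2
  · rw [if_neg h, if_neg (fun h3 => h (h1.1 h3))]

end Pool.Agent.Q18.NB
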