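import Pool.Agent.Q18.EQ.Mn
import Pool.Agent.Q18.LF.Asm2
import Pool.Agent.Y63.NV.Bawc

/-!
# Colours: the numbers of irreducible characters and of weights of a block
-/

set_option autoImplicit false

open scoped Classical BigOperators

noncomputable section

set_option linter.unusedSectionVars false
set_option linter.unusedVariables false

namespace Pool.Agent.Q18.NB

open Pool.Agent.Q18.LF
open Pool.Agent.Q18.EQ
open Pool.Agent.Y63.NV
open Pool.Agent.Q18.K (CR GP bh ph norm_arg one_cf)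
open Pool.Agent.Y63.KR (bz bz_pos bz_neg bz_congr finsum_bz orbit_sum conjSub)
open Pool.Agent.Y63.AWC (IsIrreducibleCharacter pSubgroupSetoid)
open Pool.Agent.Y286.NV (exists_sep ZG res_classFun)

section

variable {F J : Type} [Field F] [Group J] [Finite J] {p : ℕ}

theorem irr_col [IsAlgClosed F] (B : (J → F) → F) :
    numIrrBlock B = Nat.card {φ : IB F J // ∀ f, colI φ f = B f.1} := by
  unfold numIrrBlock
  refine Nat.card_congr
    { toFun := fun φ => ⟨⟨φ.1, φ.2.1⟩, fun f => (colI_iff _ f _).1 (φ.2.2 f.1 f.2)⟩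
      invFun := fun φ => ⟨φ.1.1, φ.1.2, fun f hf => (colI_iff φ.1 ⟨f, hf⟩ _).2 (φ.2 ⟨f, hf⟩)⟩
      left_inv := fun φ => rfl
      right_inv := fun φ => rfl }

/-- the weights with labels given by `B` -/
def PB (red : integralClosure ℤ ℂ →+* F) (B : (J → F) → F) (w : WT p J) : Prop :=
  ∀ f : J → F, IsClassFun f → lab red w.1 f = B f

theorem pb_conj (red : integralClosure ℤ ℂ →+* F) (B : (J → F) → F) (w : WT p J) (g : J)
    (h : PB red B w) : PB red B (MulAut.conj g • w) := by
  intro f hf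
  rw [smul_val, lab_mv red w.2 _ _ hf, ← h f hf]
  congr 1
  funext x
  rw [MulAut.conj_apply, hf]

theorem wtBlock_conj (red : integralClosure ℤ ℂ →+* F) (B : (J → F) → F) (g : J)
    (Q : Subgroup J) : numWtBlock p red (conjSub g Q) B = numWtBlock p red Q B := by
  have h1 := Pool.Agent.Y286.NV.numDz_conj p red (⊤ : Subgroup J) (Pool.Agent.Y63.NV.up B) g Q
  rw [numDz_eq, numDz_eq] at h1
  exact h1

theorem wt_col (red : integralClosure ℤ ℂ →+* F) (B : (J → F) → F) :
    (∑ᶠ c : Quotient (pSubgroupSetoid p J), numWtBlock p red c.out.1 B : ℕ) =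
      Nat.card {κ : WC p J // ∀ f, colW red κ f = B f.1} := by
  have hfW : Fintype (WT p J) := Fintype.ofFinite _
  have : Fintype (Subgroup J) := Fintype.ofFinite _
  have hfQ : Fintype {Q : Subgroup J // IsPGroup p Q} := Fintype.ofFinite _
  have hfψ : ∀ Q : {Q : Subgroup J // IsPGroup p Q},
      Fintype {ψ : Subgroup.normalizer (Q.1 : Set J) → ℂ //
        IsWt p (Q.1.subgroupOf (Subgroup.normalizer (Q.1 : Set J))) ψ} := by
    intro Q
    have h1 : Finite {ψ : Subgroup.normalizer (Q.1 : Set J) → ℂ //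
        IsWt p (Q.1.subgroupOf (Subgroup.normalizer (Q.1 : Set J))) ψ} := by
      have : Fintype (Subgroup.normalizer (Q.1 : Set J)) := Fintype.ofFinite _
      have h2 := Pool.Agent.Helper884.IC.irr_finite (G := Subgroup.normalizer (Q.1 : Set J))
      exact (h2.subset fun ψ (hψ : IsWt p (Q.1.subgroupOf
        (Subgroup.normalizer (Q.1 : Set J))) ψ) => hψ.irr).to_subtype
    exact Fintype.ofFinite _
  let _ : MulAction J (WT p J) := MulAction.compHom _ (MulAut.conj : J →* MulAut J)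
  have hPB : ∀ a b : WT p J, (wS p J).r a b → (PB red B a ↔ PB red B b) := by
    rintro a b ⟨g, rfl⟩
    constructor
    · exact pb_conj red B a g
    · intro h
      have h1 := pb_conj red B _ g⁻¹ h
      rwa [map_inv, inv_smul_smul] at h1
  have h := orbit_sum (G := J) (wS p J) (fun a b => Iff.rfl) (fun w => bz (PB red B w))
    (fun a b hab => bz_congr (hPB a b hab))
  have h2 : ∑ᶠ κ : Quotient (wS p J), bz (PB red B κ.out) =
      (Nat.card {κ : WC p J // ∀ f, colW red κ f = B f.1} : ℤ) := by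
    have hfin : Finite (Quotient (wS p J)) := inferInstance
    rw [finsum_bz (fun κ : Quotient (wS p J) => PB red B κ.out)]
    norm_cast
    refine Nat.card_congr (Equiv.subtypeEquivRight fun κ => ?_)
    have h3 : mkW κ.out = κ := Quotient.out_eq κ
    constructor
    · intro h4 f
      rw [← h3, colW_mk]
      exact h4 f.1 f.2
    · intro h4 f hf
      have h5 := h4 ⟨f, hf⟩
      rw [← h3, colW_mk] at h5
      exact h5
  have h6 : ∑ w : WT p J, (Nat.card (MulAction.stabilizer J w) : ℤ) * bz (PB red B w) =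
      ∑ Q : {Q : Subgroup J // IsPGroup p Q},
        (Nat.card (Subgroup.normalizer (Q.1 : Set J)) : ℤ) * numWtBlock p red Q.1 B := by
    have h7 : ∀ w : WT p J, (Nat.card (MulAction.stabilizer J w) : ℤ) =
        Nat.card (Subgroup.normalizer (w.1.1 : Set J)) := by
      intro w
      congr 1
      refine Nat.card_congr (Equiv.subtypeEquivRight fun g => ?_)
      rw [MulAction.mem_stabilizer_iff]
      change MulAut.conj g • w = w ↔ _
      rw [← mv_conj_norm w.2 g, Subtype.ext_iff, smul_val]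
    rw [Finset.sum_congr rfl fun w _ => by rw [h7 w],
      Fintype.sum_equiv (wE p J) (fun w => (Nat.card (Subgroup.normalizer (w.1.1 : Set J)) : ℤ) *
        bz (PB red B w)) (fun t =>
          (Nat.card (Subgroup.normalizer (t.1.1 : Set J)) : ℤ) *
            bz (PB red B ((wE p J).symm t))) (fun w => by
              rw [Equiv.symm_apply_apply]; rfl), Fintype.sum_sigma]
    refine Finset.sum_congr rfl fun Q _ => ?_
    simp only
    rw [← Finset.mul_sum]
    congr 1
    rw [← finsum_eq_sum_of_fintype,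
      finsum_bz (fun ψ : {ψ : Subgroup.normalizer (Q.1 : Set J) → ℂ //
        IsWt p (Q.1.subgroupOf (Subgroup.normalizer (Q.1 : Set J))) ψ} =>
          PB red B ((wE p J).symm ⟨Q, ψ⟩))]
    unfold numWtBlock
    norm_cast
    have hlab : ∀ (ψ : {ψ : Subgroup.normalizer (Q.1 : Set J) → ℂ //
        IsWt p (Q.1.subgroupOf (Subgroup.normalizer (Q.1 : Set J))) ψ}) (f : J → F),
        lab red ((wE p J).symm ⟨Q, ψ⟩).1 f = centralValue red ψ.1 (fun x => f x) := by
      intro ψ f
      have e : (fun x : Subgroup.normalizer (Q.1 : Set J) =>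
          ((wE p J).symm ⟨Q, ψ⟩).1.2 x) = ψ.1 := funext fun x => dif_pos x.2
      change centralValue red (fun x : Subgroup.normalizer (Q.1 : Set J) =>
          ((wE p J).symm ⟨Q, ψ⟩).1.2 x) (fun x => f x) = _
      rw [e]
    refine Nat.card_congr
      { toFun := fun ψ => ⟨ψ.1.1, ψ.1.2, fun f hf => (hlab ψ.1 f).symm.trans (ψ.2 f hf)⟩
        invFun := fun ψ => ⟨⟨ψ.1, ψ.2.1⟩, fun f hf => (hlab ⟨ψ.1, ψ.2.1⟩ f).trans (ψ.2.2 f hf)⟩
        left_inv := fun ψ => rfl
        right_inv := fun ψ => rfl }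
  rw [h2, h6] at h
  have h8 := orbit_int (Γ := J) p (fun Q => (numWtBlock p red Q B : ℤ)) (fun g Q => by
    rw [wtBlock_conj])
  have hpos : (Nat.card J : ℤ) ≠ 0 := by exact_mod_cast Nat.card_pos.ne'
  have h9 : (Nat.card J : ℤ) *
      ((∑ᶠ c : Quotient (pSubgroupSetoid p J), numWtBlock p red c.out.1 B : ℕ) : ℤ) =
      (Nat.card J : ℤ) * (Nat.card {κ : WC p J // ∀ f, colW red κ f = B f.1} : ℤ) := by
    have hfQ' : Fintype (Quotient (pSubgroupSetoid p J)) := Fintype.ofFinite _
    rw [h, finsum_eq_sum_of_fintype, Nat.cast_sum, ← finsum_eq_sum_of_fintype, h8,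
      finsum_eq_sum_of_fintype, ← Finset.sum_filter]
    exact Finset.sum_subtype (p := fun Q : Subgroup J => IsPGroup p Q)
      (Finset.univ.filter fun Q : Subgroup J => IsPGroup p Q) (by simp)
      (fun Q => (Nat.card (Subgroup.normalizer (Q : Set J)) : ℤ) * numWtBlock p red Q B)
  exact_mod_cast mul_left_cancel₀ hpos h9

theorem top_I [IsAlgClosed F] (z : J → F) (hz : IsClassFun z) (c : F) :
    (Nat.card J : ℤ) * Nat.card {φ : IB F J // colI φ ⟨z, hz⟩ = c} =
      Lsum (⊤ : Subgroup J) ⊤ z c := by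
  have h1 := count_I (j₀ := MonoidHom.id J) (fun _ _ h => h) (G := (⊤ : Subgroup J))
    (by rw [MonoidHom.range_eq_top.2 (fun x => ⟨x, rfl⟩)]) (α := MulAut.conj)
    (fun γ x => rfl) z c
  rw [← h1]
  congr 2
  have h2 := nI_eq (F := F) (MulAut.conj : J →* MulAut J) ⟨z, hz⟩ c
  have h3 : Nat.card {φ : IB F J // colI φ ⟨z, hz⟩ = c ∧ ∀ γ : J, MulAut.conj γ • φ = φ} =
      Nat.card {φ : IB F J // colI φ ⟨z, hz⟩ = c} :=
    Nat.card_congr (Equiv.subtypeEquivRight fun φ =>
      ⟨fun h => h.1, fun h => ⟨h, fun γ => ib_conj γ φ⟩⟩)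
  rw [← h3, ← h2]
  rfl

theorem top_W [Fact p.Prime] [IsAlgClosed F] [CharP F p] (red : integralClosure ℤ ℂ →+* F)
    (z : J → F) (hz : IsClassFun z) (c : F) :
    (Nat.card J : ℤ) * Nat.card {κ : WC p J // colW red κ ⟨z, hz⟩ = c} =
      Wsum p red (⊤ : Subgroup J) ⊤ z c := by
  have h1 := count_W (p := p) red (j₀ := MonoidHom.id J) (fun _ _ h => h)
    (G := (⊤ : Subgroup J))
    (by rw [MonoidHom.range_eq_top.2 (fun x => ⟨x, rfl⟩)]) (pgroup_top p J) (α := MulAut.conj)
    (fun γ x => rfl) z c ⟨fun g x => hz g x, fun x hx => absurd trivial hx⟩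
  rw [← h1]
  congr 2
  have h2 := nW_eq (p := p) red (MulAut.conj : J →* MulAut J) ⟨z, hz⟩ c
  have h3 : Nat.card {κ : WC p J // colW red κ ⟨z, hz⟩ = c ∧ ∀ γ : J, MulAut.conj γ • κ = κ} =
      Nat.card {κ : WC p J // colW red κ ⟨z, hz⟩ = c} :=
    Nat.card_congr (Equiv.subtypeEquivRight fun κ =>
      ⟨fun h => h.1, fun h => ⟨h, fun γ => wc_conj γ κ⟩⟩)
  rw [← h3, ← h2]
  rfl

end

end Pool.Agent.Q18.NB
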