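import Pool.Agent.Q18.NB.Cnv
import Pool.Agent.Y170.NV.Lsep
import Pool.Agent.Q18.LF.Asm2
import Pool.Agent.Q18.K.Sep

/-!
# Separation: SEPK, SEPH, SEPX
-/

set_option autoImplicit false

open scoped Classical BigOperators

noncomputable section

set_option linter.unusedSectionVars false
set_option linter.unusedVariables false

namespace Pool.Agent.Q18.NB

open Pool.Agent.Q18.LF
open Pool.Agent.Y63.NV
open Pool.Agent.Y63.KR
open Pool.Agent.Y63.AWC (IsIrreducibleCharacter pSubgroupSetoid irr_comp)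
open Pool.Agent.Y286.NV (exists_sep ZG res_classFun blkF inv_block)
open Pool.Agent.Y170.NV (lamF lamF_apply)

section lin

variable {F : Type} [Field F]

/-- the reduced central character as a linear functional -/
def cvL (red : integralClosure ℤ ℂ →+* F) {K : Type} [Group K] [Finite K] (χ : K → ℂ) :
    (K → F) →ₗ[F] F where
  toFun f := centralValue red χ f
  map_add' a b := by
    unfold centralValue
    rw [← finsum_add_distrib (Set.toFinite _) (Set.toFinite _)]
    refine finsum_congr fun C => ?_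
    rw [← add_mul]
    rfl
  map_smul' c a := by
    unfold centralValue
    rw [RingHom.id_apply, smul_finsum' c (Set.toFinite _)]
    refine finsum_congr fun C => ?_
    rw [smul_eq_mul, ← mul_assoc]
    rfl

/-- the sums over cosets as a linear map -/
def pushL (F : Type) [Field F] {J : Type} [Group J] [Finite J] (M : Subgroup J) :
    (J → F) →ₗ[F] (J ⧸ M → F) where
  toFun f := push M f
  map_add' a b := by
    funext x
    unfold push
    rw [Pi.add_apply, ← finsum_add_distrib (Set.toFinite _) (Set.toFinite _)]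
    refine finsum_congr fun g => ?_
    by_cases h : (g : J ⧸ M) = x
    · rw [if_pos h, if_pos h, if_pos h, Pi.add_apply]
    · rw [if_neg h, if_neg h, if_neg h, add_zero]
  map_smul' c a := by
    funext x
    unfold push
    rw [RingHom.id_apply, Pi.smul_apply, smul_finsum' c (Set.toFinite _)]
    refine finsum_congr fun g => ?_
    by_cases h : (g : J ⧸ M) = x
    · rw [if_pos h, if_pos h, Pi.smul_apply]
    · rw [if_neg h, if_neg h, smul_zero]

/-- composition with a map as a linear map -/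
def compL (F : Type) [Field F] {A B : Type} (i : A → B) : (B → F) →ₗ[F] (A → F) where
  toFun f := fun x => f (i x)
  map_add' a b := rfl
  map_smul' c a := rfl

variable {Γ : Type} [Group Γ] [Finite Γ]

/-- the map to the functions on `N_Γ(Q)/Q` -/
def tQ (F : Type) [Field F] (G Q : Subgroup Γ) : ZG F G →ₗ[F] (NQ Q → F) :=
  (pushL F (Q.subgroupOf (Subgroup.normalizer (Q : Set Γ)))) ∘ₗ
    (compL F (fun x : Subgroup.normalizer (Q : Set Γ) => (x : Γ))) ∘ₗ (ZG F G).subtype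

theorem tQ_apply (G Q : Subgroup Γ) (z : ZG F G) : tQ F G Q z = pz Q z.1 := rfl

/-- counting with a separating element -/
theorem cnt_sep (red : integralClosure ℤ ℂ →+* F) {G : Subgroup Γ} {K : Type} [Group K]
    [Finite K] (T : ZG F G →ₗ[F] (K → F)) (b : ZG F G →ₗ[F] F) (z : ZG F G)
    (R : (K → ℂ) → Prop)
    (hz : ∀ χ, R χ → (cvL red χ ∘ₗ T) z = b z → cvL red χ ∘ₗ T = b) :
    Nat.card {χ : K → ℂ // R χ ∧ centralValue red χ (T z) = b z} =
      Nat.card {χ : K → ℂ // R χ ∧ ∀ w : ZG F G, centralValue red χ (T w) = b w} := by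
  refine Nat.card_congr (Equiv.subtypeEquivRight fun χ => and_congr_right fun hχ => ?_)
  constructor
  · intro h w
    exact LinearMap.congr_fun (hz χ hχ h) w
  · intro h
    exact h z

theorem zg_iff {G : Subgroup Γ} (P : (Γ → F) → Prop) :
    (∀ w : ZG F G, P w.1) ↔ ∀ w : Γ → F, InZ G w → P w :=
  ⟨fun h w hw => h ⟨w, hw⟩, fun h w => h w.1 w.2⟩

instance irrFin (K : Type) [Group K] [Finite K] :
    Finite {χ : K → ℂ // IsIrreducibleCharacter χ} := Pool.Agent.Y171.NV.irr_fin K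

/-- **the separating element** -/
theorem master [IsAlgClosed F] (p : ℕ) (red : integralClosure ℤ ℂ →+* F) (G : Subgroup Γ)
    (b : ZG F G →ₗ[F] F) : ∃ z : ZG F G,
    (∀ (H : Subgroup Γ) (B : (G → F) → F), (∀ w : ZG F G, B (fun y : G => w.1 y) = b w) →
      Lnum (G ⊓ H) H z.1 (b z) = numIBrInd G H B) ∧
    (∀ (Q : Subgroup Γ) (K : Subgroup (NQ Q)) (B : (G → F) → F),
      (∀ w : ZG F G, B (fun y : G => w.1 y) = b w) →
      Knum red (fun x : K => pz Q z.1 x) (b z) = numIrrCov red G Q B K) ∧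
    (∀ (Q : Subgroup Γ) (B : (G → F) → F), (∀ w : ZG F G, B (fun y : G => w.1 y) = b w) →
      Nw p red (⊥ : Subgroup (NQ Q)) (pz Q z.1) (b z) = numDzCov p red G Q B) ∧
    (∀ K : Subgroup Γ, Knum red (fun x : K => z.1 x) (b z) =
      Nat.card {χ : K → ℂ // IsIrreducibleCharacter χ ∧
        ∀ w : ZG F G, centralValue red χ (fun x : K => w.1 x) = b w}) ∧
    (Nw p red (⊥ : Subgroup Γ) z.1 (b z) = Nat.card {χ : Γ → ℂ // IsWt p (⊥ : Subgroup Γ) χ ∧
        ∀ w : ZG F G, centralValue red χ w.1 = b w}) ∧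
    (∀ (K : Subgroup G) (B : (Γ → F) → F), (∀ w : ZG F G, B w.1 = b w) →
      Knum red (fun x : K => z.1 x) (b z) = numIrrG red G B K) ∧
    (∀ B : (Γ → F) → F, (∀ w : ZG F G, B w.1 = b w) →
      Nw p red (⊥ : Subgroup G) (fun x : G => z.1 x) (b z) = numDzG p red G B) := by
  have hInf : Infinite F := inferInstance
  have hirr : ∀ H : Subgroup Γ, Finite {φ : ↥(G ⊓ H) → F // IsIrrTrace φ} :=
    fun H => (Pool.Agent.Y914.NV.irr F ↥(G ⊓ H)).1.to_subtype
  choose hne Bφ hBφ hact using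
    fun (q : Σ H : Subgroup Γ, {φ : ↥(G ⊓ H) → F // IsIrrTrace φ}) =>
      schur' F ↥(G ⊓ q.1) q.2.1 q.2.2
  let S1 : Set (ZG F G →ₗ[F] F) := Set.range fun q : (Σ H : Subgroup Γ,
    {φ : ↥(G ⊓ H) → F // IsIrrTrace φ}) => lamF G (hBφ q)
  let S2 : Set (ZG F G →ₗ[F] F) := Set.range fun q : (Σ Q : Subgroup Γ, Σ K : Subgroup (NQ Q),
    {χ : K → ℂ // IsIrreducibleCharacter χ}) =>
      cvL red q.2.2.1 ∘ₗ (compL F (fun x : q.2.1 => (x : NQ q.1)) ∘ₗ tQ F G q.1)
  let S3 : Set (ZG F G →ₗ[F] F) := Set.range fun q : (Σ Q : Subgroup Γ,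
    {χ : NQ Q → ℂ // IsIrreducibleCharacter χ}) => cvL red q.2.1 ∘ₗ tQ F G q.1
  let S4 : Set (ZG F G →ₗ[F] F) := Set.range fun q : (Σ K : Subgroup Γ,
    {χ : K → ℂ // IsIrreducibleCharacter χ}) =>
      cvL red q.2.1 ∘ₗ (compL F (fun x : q.1 => (x : Γ)) ∘ₗ (ZG F G).subtype)
  let S5 : Set (ZG F G →ₗ[F] F) := Set.range fun q :
    {χ : Γ → ℂ // IsIrreducibleCharacter χ} => cvL red q.1 ∘ₗ (ZG F G).subtype
  let S6 : Set (ZG F G →ₗ[F] F) := Set.range fun q : (Σ K : Subgroup G,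
    {χ : K → ℂ // IsIrreducibleCharacter χ}) =>
      cvL red q.2.1 ∘ₗ (compL F (fun x : q.1 => ((x : G) : Γ)) ∘ₗ (ZG F G).subtype)
  let S7 : Set (ZG F G →ₗ[F] F) := Set.range fun q :
    {χ : G → ℂ // IsIrreducibleCharacter χ} =>
      cvL red q.1 ∘ₗ (compL F (fun x : G => (x : Γ)) ∘ₗ (ZG F G).subtype)
  let S : Set (ZG F G →ₗ[F] F) := S1 ∪ S2 ∪ S3 ∪ S4 ∪ S5 ∪ S6 ∪ S7
  have hS : S.Finite :=
    ((((((Set.finite_range _).union (Set.finite_range _)).union (Set.finite_range _)).union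
      (Set.finite_range _)).union (Set.finite_range _)).union (Set.finite_range _)).union
      (Set.finite_range _)
  have hSf : Finite S := hS.to_subtype
  obtain ⟨z, hz⟩ := exists_sep (fun i : S => i.1) b
  have hz' : ∀ μ ∈ S, μ z = b z → μ = b := fun μ hμ h => hz ⟨μ, hμ⟩ h
  refine ⟨z, ?_, ?_, ?_, ?_, ?_, ?_, ?_⟩
  · intro H B hb
    unfold Lnum numIBrInd
    refine Nat.card_congr (Equiv.subtypeEquivRight fun φ => ?_)
    constructor
    · rintro ⟨hφ, hinv, hzφ⟩
      refine ⟨hφ, hinv, fun z' hz'' x => ?_⟩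
      obtain ⟨y, hy⟩ := hne ⟨H, φ, hφ⟩
      have h4 : Bφ ⟨H, φ, hφ⟩ (fun x : ↥(G ⊓ H) => z.1 x) = b z := by
        have h5 := hact ⟨H, φ, hφ⟩ (fun x : ↥(G ⊓ H) => z.1 x) (res_classFun z.2 _) y
        have h6 := hzφ y
        exact mul_right_cancel₀ hy (h5.symm.trans h6)
      have h5 : lamF G (hBφ ⟨H, φ, hφ⟩) = b := hz' _ (by
        refine Or.inl (Or.inl (Or.inl (Or.inl (Or.inl (Or.inl ?_)))))
        exact ⟨⟨H, φ, hφ⟩, rfl⟩) h4
      have h6 : Bφ ⟨H, φ, hφ⟩ (fun x : ↥(G ⊓ H) => z' x) = B (fun y : G => z' y) := by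
        have h7 := hb ⟨z', hz''⟩
        rw [← h5] at h7
        exact h7.symm
      rw [← h6]
      exact hact ⟨H, φ, hφ⟩ (fun x => z' x) (res_classFun hz'' _) x
    · rintro ⟨hφ, hinv, hzφ⟩
      refine ⟨hφ, hinv, fun x => ?_⟩
      rw [← hb z]
      exact hzφ z.1 z.2 x
  · intro Q K B hb
    have h1 := cnt_sep red (compL F (fun x : K => (x : NQ Q)) ∘ₗ tQ F G Q) b z
      IsIrreducibleCharacter (fun χ hχ h => hz' _ (by
        refine Or.inl (Or.inl (Or.inl (Or.inl (Or.inl (Or.inr ?_)))))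
        exact ⟨⟨Q, K, χ, hχ⟩, rfl⟩) h)
    refine Eq.trans h1 ?_
    unfold numIrrCov
    refine Nat.card_congr (Equiv.subtypeEquivRight fun χ => and_congr_right fun hχ => ?_)
    constructor
    · intro h w hw
      exact (h ⟨w, hw⟩).trans (hb ⟨w, hw⟩).symm
    · intro h w
      exact (h w.1 w.2).trans (hb w)
  · intro Q B hb
    have h1 := cnt_sep red (tQ F G Q) b z (IsWt p (⊥ : Subgroup (NQ Q))) (fun χ hχ h => hz' _ (by
        refine Or.inl (Or.inl (Or.inl (Or.inl (Or.inr ?_))))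
        exact ⟨⟨Q, χ, hχ.irr⟩, rfl⟩) h)
    refine Eq.trans h1 ?_
    unfold numDzCov
    refine Nat.card_congr (Equiv.subtypeEquivRight fun χ => and_congr_right fun hχ => ?_)
    constructor
    · intro h w hw
      exact (h ⟨w, hw⟩).trans (hb ⟨w, hw⟩).symm
    · intro h w
      exact (h w.1 w.2).trans (hb w)
  · intro K
    exact cnt_sep red (compL F (fun x : K => (x : Γ)) ∘ₗ (ZG F G).subtype) b z
      IsIrreducibleCharacter (fun χ hχ h => hz' _ (by
        refine Or.inl (Or.inl (Or.inl (Or.inr ?_)))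
        exact ⟨⟨K, χ, hχ⟩, rfl⟩) h)
  · exact cnt_sep red (ZG F G).subtype b z (IsWt p (⊥ : Subgroup Γ)) (fun χ hχ h => hz' _ (by
        refine Or.inl (Or.inl (Or.inr ?_))
        exact ⟨⟨χ, hχ.irr⟩, rfl⟩) h)
  · intro K B hb
    have h1 := cnt_sep red (compL F (fun x : K => ((x : G) : Γ)) ∘ₗ (ZG F G).subtype) b z
      IsIrreducibleCharacter (fun χ hχ h => hz' _ (by
        refine Or.inl (Or.inr ?_)
        exact ⟨⟨K, χ, hχ⟩, rfl⟩) h)
    refine Eq.trans h1 ?_
    unfold numIrrG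
    refine Nat.card_congr (Equiv.subtypeEquivRight fun χ => and_congr_right fun hχ => ?_)
    constructor
    · intro h w hw
      exact (h ⟨w, hw⟩).trans (hb ⟨w, hw⟩).symm
    · intro h w
      exact (h w.1 w.2).trans (hb w)
  · intro B hb
    have h1 := cnt_sep red (compL F (fun x : G => (x : Γ)) ∘ₗ (ZG F G).subtype) b z
      (IsWt p (⊥ : Subgroup G)) (fun χ hχ h => hz' _ (by
        refine Or.inr ?_
        exact ⟨⟨χ, hχ.irr⟩, rfl⟩) h)
    refine Eq.trans h1 ?_
    unfold numDzG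
    refine Nat.card_congr (Equiv.subtypeEquivRight fun χ => and_congr_right fun hχ => ?_)
    constructor
    · intro h w hw
      exact (h ⟨w, hw⟩).trans (hb ⟨w, hw⟩).symm
    · intro h w
      exact (h w.1 w.2).trans (hb w)

end lin

section

variable {p : ℕ} [Fact p.Prime] {F : Type} [Field F] [IsAlgClosed F] [CharP F p]
  {Γ : Type} [Group Γ] [Finite Γ]

/-- the invariant traces in an invariant block -/
theorem numIBr_top (G : Subgroup Γ) [hG : G.Normal] (hp : IsPGroup p (Γ ⧸ G))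
    {B : (G → F) → F} (hB : IsBlock B) (hBi : IsInvBlock G B) :
    numIBrInd G ⊤ B = numIBr G B := by
  unfold numIBrInd numIBr
  let e : G ≃* ↥(G ⊓ ⊤) :=
    { toFun := fun x => ⟨x.1, ⟨x.2, trivial⟩⟩
      invFun := fun y => ⟨y.1, y.2.1⟩
      left_inv := fun _ => rfl
      right_inv := fun _ => rfl
      map_mul' := fun _ _ => rfl }
  refine Nat.card_congr
    { toFun := fun φ => ⟨fun x => φ.1 (e x),
        Pool.Agent.Y210.NV2.irrTrace_comp e φ.2.1, ?_, ?_⟩
      invFun := fun φ => ⟨fun x => φ.1 (e.symm x),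
        Pool.Agent.Y210.NV2.irrTrace_comp e.symm φ.2.1, ?_, ?_⟩
      left_inv := fun φ => rfl
      right_inv := fun φ => rfl }
  · intro g hg x y hxy
    exact φ.2.2.1 g hg (e x) (e y) hxy
  · have hφ : IsIrrTrace (fun x => φ.1 (e x)) :=
      Pool.Agent.Y210.NV2.irrTrace_comp e φ.2.1
    have hinv : IsInvUnder (⊤ : Subgroup Γ) (fun x : G => φ.1 (e x)) :=
      fun g hg x y hxy => φ.2.2.1 g hg (e x) (e y) hxy
    obtain ⟨hne, Bφ, hBφ, hact⟩ := schur' F G _ hφ
    have h1 : ∀ z : Γ → F, InZ G z → Bφ (fun x : G => z x) = B (fun x : G => z x) := by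
      intro z hz
      obtain ⟨y, hy⟩ := hne
      have h2 := hact (fun x : G => z x) (res_classFun hz G) y
      have h3 := φ.2.2.2 z hz (e y)
      have h4 : ∑ᶠ g : G, z g * φ.1 (e (g * y)) = ∑ᶠ g : ↥(G ⊓ ⊤), z g * φ.1 (g * e y) := by
        rw [← finsum_comp_equiv e.toEquiv]
        rfl
      exact mul_right_cancel₀ hy (h2.symm.trans (h4.trans h3))
    have h5 := Pool.Agent.Y405.NV.rinj p F Γ G hp Bφ B hBφ hB
      (inv_block hinv hne hact) hBi h1
    intro f hf x
    rw [← h5 f hf]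
    exact hact f hf x
  · intro g hg x y hxy
    exact φ.2.2.1 g hg (e.symm x) (e.symm y) hxy
  · intro z hz x
    have h1 := φ.2.2.2 (fun x : G => z x) (res_classFun hz G) (e.symm x)
    have h4 : ∑ᶠ g : ↥(G ⊓ ⊤), z g * φ.1 (e.symm (g * x)) =
        ∑ᶠ g : G, z g * φ.1 (g * e.symm x) := by
      rw [← finsum_comp_equiv e.toEquiv]
      rfl
    exact h4.trans h1

end

theorem sepk : S_SEPK := by
  intro p _ F _ _ _ red Γ _ _ G hG hp h B hB hBi
  obtain ⟨z, h1, h2, -⟩ := master p red G (blkF hB)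
  have hb : ∀ w : ZG F G, B (fun y : G => w.1 y) = blkF hB w := fun w => rfl
  have h3 := h z.1 z.2 (blkF hB z)
  have h4 : Lsum G ⊤ z.1 (blkF hB z) = (Nat.card Γ : ℤ) * numIBr G B := by
    unfold Lsum
    rw [if_pos (sup_top_eq G), Subgroup.card_top, h1 ⊤ B hb, numIBr_top G hp hB hBi]
  rw [h4] at h3
  rw [h3]
  refine finsum_congr fun Q => ?_
  by_cases hQ : IsPGroup p Q ∧ G ⊔ Q = ⊤
  · rw [if_pos hQ, if_pos hQ]
    congr 1
    unfold KA
    refine finsum_congr fun σ => ?_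
    rw [h2 Q (chainStabilizer σ.1) B hb]
  · rw [if_neg hQ, if_neg hQ]

theorem seph : S_SEPH := by
  intro p _ F _ _ _ Γ _ _ G H hG hp hGH h B hB hBi
  obtain ⟨red⟩ : Nonempty (integralClosure ℤ ℂ →+* F) := by
    obtain ⟨r⟩ := red' p
    have : Algebra (ZMod p) F := ZMod.algebra F p
    exact ⟨((IsAlgClosed.lift : AlgebraicClosure (ZMod p) →ₐ[ZMod p] F) :
      AlgebraicClosure (ZMod p) →+* F).comp r⟩
  obtain ⟨z, h1, -⟩ := master p red G (blkF hB)
  have hb : ∀ w : ZG F G, B (fun y : G => w.1 y) = blkF hB w := fun w => rfl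
  have h3 := h z.1 z.2 (blkF hB z)
  unfold Lsum at h3
  rw [if_pos (sup_top_eq G), if_pos hGH, Subgroup.card_top, h1 ⊤ B hb,
    numIBr_top G hp hB hBi, h1 H B hb] at h3
  have hpos : (Nat.card H : ℤ) * (Nat.card Γ : ℤ) ≠ 0 := by
    have h5 : (Nat.card Γ : ℤ) ≠ 0 := by exact_mod_cast Nat.card_pos.ne'
    have h6 : (Nat.card H : ℤ) ≠ 0 := by exact_mod_cast Nat.card_pos.ne'
    exact mul_ne_zero h6 h5
  have h7 : (Nat.card H : ℤ) * (Nat.card Γ : ℤ) * (numIBr G B : ℤ) =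
      (Nat.card H : ℤ) * (Nat.card Γ : ℤ) * (numIBrInd G H B : ℤ) := by
    rw [mul_assoc, h3]
    ring
  exact_mod_cast mul_left_cancel₀ hpos h7

end Pool.Agent.Q18.NB
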